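import Pool.Agent.LargeDist.Exact.CoincRd

/-!
# The structure of the extremal configurations

PROOF of `apex`. Let `m = card B`. If `3 m < card (B - B) + 7` then `card_sub_le` (`Line.lean`) gives
`3 m ≤ 2 card (rd B) + 7 ≤ 2 k + 7`, against `hW`, `hW'`. Otherwise `freiman_sub`
(`Sharp/FreimanSub.lean`) gives `a`, `g` and `j` (natural numbers, choose and cast):
`Crd B a g j`. Let `C = {b ∈ B : uu o ρ b ∈ rd B}`, `card C ≤ T` (`card_rd_le`). As in
`line_bound_sharp`, `card (rd B) + card (uu o ρ (B)) ≤ card Δ + card C`, `m ≤ card (rd B) + 1`.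
If `uu o ρ` is injective on `B` then `2 m ≤ k + 1 + T`, against `hW` (`2 k + W ≤ 3 m`) and
`40 T ≤ m`. So there are `b ≠ b'` in `B` with `uu b = uu b'`, i.e. `b + b' = 2 o`, so
`2 (o - a) = (j b + j b') g`, `p = j b + j b'`. With `m ≤ 2 card (uu o ρ (B))`
(`card_le_two_mul_uu`): `3 m ≤ 2 k + 2 + 2 card C`, so `W ≤ 2 + 2 card C`, in particular `C` is
nonempty. For `b ∈ C` there is an integer `δ > 0` with `uu o ρ b = δ g`, so
`(b - o) ^ 2 + ρ ^ 2 = δ ^ 2 g ^ 2`, and `4 ρ ^ 2 = (4 δ ^ 2 - (2 j b - p) ^ 2) g ^ 2`: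
`N = 4 δ ^ 2 - (2 j b - p) ^ 2`, the same for all `b ∈ C`, positive. Now
`(2 δ - |2 j b - p|) (2 δ + |2 j b - p|) = N` gives `|2 j b - p| ≤ N`. As `j` is injective on `B`,
`card C ≤` number of the integers `i` with `|2 i - p| ≤ N`, at most `N + 1`. So
`W ≤ 2 + 2 (N + 1)`.
PROOF of `sep_le`. `b ↦ ⌊(b - a) / r⌋` is injective on `B` and has values in `0 .. ⌊2 m g / r⌋`, so
`m ≤ 2 m g / r + 1`, `(m - 1) r ≤ 2 m g`, `m ≤ 2 (m - 1)`.
-/

set_option autoImplicit false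

namespace Pool.Agent.LargeDist.Exact

open Finset

open scoped Pointwise in
theorem apex {B Δ : Finset ℝ} {T : ℕ} (hT : DivB B.card T) {o ρ : ℝ} (hρ : 0 < ρ)
    (h1 : rd B ⊆ Δ) (h2 : ∀ b ∈ B, uu o ρ b ∈ Δ) {k W : ℕ} (hk : Δ.card ≤ k)
    (hW : 2 * k + W ≤ 3 * B.card) (hW' : 10 ≤ W) :
    ∃ (a g : ℝ) (j : ℝ → ℤ) (p N : ℤ), Crd B a g j ∧ 2 * (o - a) = p * g ∧ 0 ≤ p ∧
      p ≤ 4 * B.card ∧ 4 * ρ ^ 2 = N * g ^ 2 ∧ (W : ℤ) ≤ 2 * N + 4 := by
  classical
  have hrd := Finset.card_le_card h1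
  rcases Nat.lt_or_ge (3 * B.card) ((B - B).card + 7) with hlt | hge
  · have := card_sub_le B
    omega
  obtain ⟨a, g, hg, hj⟩ := Sharp.freiman_sub B hge
  choose! j hj1 hj2 using hj
  have hg0 : g ≠ 0 := hg.ne'
  have hc : Crd B a g (fun b => (j b : ℤ)) := by
    refine ⟨hg, fun b hb => ?_, fun b _ => Int.natCast_nonneg _, fun b hb => ?_⟩
    · rw [Int.cast_natCast]
      exact hj2 b hb
    · exact_mod_cast hj1 b hb
  have hjinj : ∀ b ∈ B, ∀ b' ∈ B, j b = j b' → b = b' := by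
    intro b hb b' hb' h
    rw [hj2 b hb, hj2 b' hb', h]
  have hCT := card_rd_le hc hT o hρ
  set C := B.filter (fun b => uu o ρ b ∈ rd B) with hC
  have hCB : ∀ b ∈ C, b ∈ B := fun b hb => (Finset.mem_filter.1 hb).1
  have hinter : (rd B ∩ B.image (uu o ρ)).card ≤ C.card := by
    calc (rd B ∩ B.image (uu o ρ)).card ≤ (C.image (uu o ρ)).card := by
          apply Finset.card_le_card
          intro t ht
          rw [Finset.mem_inter, Finset.mem_image] at ht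
          obtain ⟨ht1, b, hb, rfl⟩ := ht
          exact Finset.mem_image_of_mem _ (Finset.mem_filter.2 ⟨hb, ht1⟩)
      _ ≤ C.card := Finset.card_image_le
  have hunion : (rd B ∪ B.image (uu o ρ)).card ≤ Δ.card := by
    apply Finset.card_le_card
    apply Finset.union_subset h1
    intro t ht
    obtain ⟨b, hb, rfl⟩ := Finset.mem_image.1 ht
    exact h2 b hb
  have hsum := Finset.card_union_add_card_inter (rd B) (B.image (uu o ρ))
  have hE := card_le_two_mul_uu B o ρ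
  have hD := card_le_rd B
  have hT2 := hT.small
  -- the function is not injective
  have hninj : ¬ Set.InjOn (uu o ρ) (B : Set ℝ) := by
    intro hinj
    have h3 := Finset.card_image_of_injOn hinj
    omega
  obtain ⟨b₁, hb₁, b₂, hb₂, huu, hne⟩ : ∃ b₁ ∈ B, ∃ b₂ ∈ B, uu o ρ b₁ = uu o ρ b₂ ∧ b₁ ≠ b₂ := by
    by_contra hcon
    push Not at hcon
    exact hninj fun x hx y hy hxy => hcon x hx y hy hxy
  have hsum2 : b₁ + b₂ = 2 * o := by
    have h3 : uu o ρ b₁ ^ 2 = uu o ρ b₂ ^ 2 := by rw [huu]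
    rw [uu_sq, uu_sq] at h3
    have h4 : (b₁ - b₂) * (b₁ + b₂ - 2 * o) = 0 := by linarith
    rcases mul_eq_zero.1 h4 with h | h
    · exact absurd (sub_eq_zero.1 h) hne
    · linarith
  set p : ℤ := (j b₁ : ℤ) + j b₂ with hp
  have hpo : 2 * (o - a) = (p : ℝ) * g := by
    have h3 := hj2 b₁ hb₁
    have h4 := hj2 b₂ hb₂
    rw [hp]
    push_cast
    linarith
  have hp0 : 0 ≤ p := by positivity
  have hp4 : p ≤ 4 * B.card := by
    have h3 := hj1 b₁ hb₁
    have h4 := hj1 b₂ hb₂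
    rw [hp]
    omega
  -- the integers δ
  have hCδ : ∀ b ∈ C, ∃ δ : ℤ, 0 < δ ∧
      4 * ρ ^ 2 = ((4 * δ ^ 2 - (2 * (j b : ℤ) - p) ^ 2 : ℤ) : ℝ) * g ^ 2 := by
    intro b hb
    obtain ⟨hbB, hbr⟩ := Finset.mem_filter.1 hb
    obtain ⟨x, hx, y, hy, hxy, h⟩ := mem_rd.1 hbr
    have hne' : (j x : ℤ) ≠ j y := by
      intro h'
      exact hxy (hjinj x hx y hy (by exact_mod_cast h'))
    refine ⟨|(j x : ℤ) - j y|, abs_pos.2 (sub_ne_zero.2 hne'), ?_⟩
    have e1 : uu o ρ b ^ 2 = (x - y) ^ 2 := by rw [← h, sq_abs]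
    have e2 : x - y = ((j x : ℝ) - j y) * g := by
      have h3 := hj2 x hx
      have h4 := hj2 y hy
      linarith
    have e3 : 2 * (b - o) = (2 * (j b : ℝ) - p) * g := by
      have h3 := hj2 b hbB
      linarith
    rw [uu_sq, e2] at e1
    have e4 : 4 * (b - o) ^ 2 = ((2 * (j b : ℝ) - p) * g) ^ 2 := by
      rw [← e3]
      ring
    rw [sq_abs]
    push_cast
    linarith
  have hCW : W ≤ 2 + 2 * C.card := by omega
  have hCpos : 0 < C.card := by omega
  obtain ⟨b₀, hb₀⟩ := Finset.card_pos.1 hCpos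
  obtain ⟨δ₀, hδ₀, hN₀⟩ := hCδ b₀ hb₀
  set N : ℤ := 4 * δ₀ ^ 2 - (2 * (j b₀ : ℤ) - p) ^ 2 with hN
  have hg2 : g ^ 2 ≠ 0 := pow_ne_zero 2 hg0
  have hNpos : 0 < N := by
    have h3 : (0 : ℝ) < (N : ℝ) * g ^ 2 := by
      rw [← hN₀]
      positivity
    have h4 : (0 : ℝ) < (N : ℝ) := by
      by_contra hcon
      push Not at hcon
      have : (N : ℝ) * g ^ 2 ≤ 0 := mul_nonpos_of_nonpos_of_nonneg hcon (by positivity)
      linarith
    exact_mod_cast h4
  have habs : ∀ b ∈ C, |2 * (j b : ℤ) - p| ≤ N := by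
    intro b hb
    obtain ⟨δ, hδ, hNb⟩ := hCδ b hb
    have h3 : ((4 * δ ^ 2 - (2 * (j b : ℤ) - p) ^ 2 : ℤ) : ℝ) = (N : ℝ) := by
      apply mul_right_cancel₀ hg2
      rw [← hNb, ← hN₀]
    have h4 : 4 * δ ^ 2 - (2 * (j b : ℤ) - p) ^ 2 = N := by exact_mod_cast h3
    set z : ℤ := |2 * (j b : ℤ) - p| with hz
    have hz0 : 0 ≤ z := abs_nonneg _
    have hz2 : z ^ 2 = (2 * (j b : ℤ) - p) ^ 2 := sq_abs _
    rw [← hz2] at h4
    have h5 : (2 * δ - z) * (2 * δ + z) = N := by linarith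
    have h6 : 0 < 2 * δ + z := by omega
    have h7 : 0 < 2 * δ - z := by
      by_contra hcon
      push Not at hcon
      have : (2 * δ - z) * (2 * δ + z) ≤ 0 :=
        mul_nonpos_of_nonpos_of_nonneg hcon h6.le
      omega
    nlinarith
  have hcard : C.card ≤ (Finset.Icc ((p - N + 1) / 2) ((p + N) / 2)).card := by
    have h3 : (C.image (fun b => (j b : ℤ))).card = C.card := by
      apply Finset.card_image_of_injOn
      intro b hb b' hb' h
      have h' : (j b : ℤ) = j b' := h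
      exact hjinj b (hCB b hb) b' (hCB b' hb') (by exact_mod_cast h')
    rw [← h3]
    apply Finset.card_le_card
    intro i hi
    obtain ⟨b, hb, rfl⟩ := Finset.mem_image.1 hi
    have h4 := abs_le.1 (habs b hb)
    rw [Finset.mem_Icc]
    constructor
    · omega
    · omega
  rw [Int.card_Icc] at hcard
  refine ⟨a, g, fun b => (j b : ℤ), p, N, hc, hpo, hp0, hp4, hN₀, ?_⟩
  omega

theorem sep_le {B : Finset ℝ} {a g : ℝ} {j : ℝ → ℤ} (hc : Crd B a g j) {r : ℝ} (hr : 0 < r)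
    (hm : 2 ≤ B.card) (hsep : ∀ x ∈ B, ∀ y ∈ B, x ≠ y → r ≤ |x - y|) : r ≤ 4 * g := by
  classical
  have hg := hc.pos
  have hinj : Set.InjOn (fun b : ℝ => ⌊(b - a) / r⌋) (B : Set ℝ) := by
    intro x hx y hy hxy
    by_contra hne
    have h1 := hsep x hx y hy hne
    have h2 : |(x - a) / r - (y - a) / r| < 1 := Int.abs_sub_lt_one_of_floor_eq_floor hxy
    have h3 : (x - a) / r - (y - a) / r = (x - y) / r := by ring
    rw [h3, abs_div, abs_of_pos hr, div_lt_one hr] at h2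
    linarith
  set M : ℤ := ⌊2 * (B.card : ℝ) * g / r⌋ with hM
  have hM0 : 0 ≤ M := Int.floor_nonneg.2 (by positivity)
  have hsub : B.image (fun b : ℝ => ⌊(b - a) / r⌋) ⊆ Finset.Icc 0 M := by
    intro t ht
    obtain ⟨b, hb, rfl⟩ := Finset.mem_image.1 ht
    have h1 := hc.eq b hb
    have h2 := hc.nonneg b hb
    have h3 := hc.le b hb
    have h2' : (0 : ℝ) ≤ (j b : ℝ) := by exact_mod_cast h2
    have h3' : (j b : ℝ) ≤ 2 * (B.card : ℝ) := by exact_mod_cast h3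
    have h4 : b - a = (j b : ℝ) * g := by linarith
    rw [Finset.mem_Icc]
    constructor
    · apply Int.floor_nonneg.2
      rw [h4]
      positivity
    · rw [hM]
      apply Int.floor_le_floor
      rw [h4]
      apply div_le_div_of_nonneg_right _ hr.le
      exact mul_le_mul_of_nonneg_right h3' hg.le
  have hcard := Finset.card_le_card hsub
  rw [Finset.card_image_of_injOn hinj, Int.card_Icc] at hcard
  have h5 : (B.card : ℤ) ≤ M + 1 := by omega
  have h6 : (M : ℝ) ≤ 2 * (B.card : ℝ) * g / r := Int.floor_le _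
  have h7 : (B.card : ℝ) ≤ (M : ℝ) + 1 := by exact_mod_cast h5
  have h8 : ((B.card : ℝ) - 1) * r ≤ 2 * (B.card : ℝ) * g := by
    have h9 : (B.card : ℝ) - 1 ≤ 2 * (B.card : ℝ) * g / r := by linarith
    rwa [le_div_iff₀ hr] at h9
  have h10 : (2 : ℝ) ≤ (B.card : ℝ) := by exact_mod_cast hm
  by_contra hcon
  push Not at hcon
  nlinarith

end Pool.Agent.LargeDist.Exact
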