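import Pool.Agent.LargeDist.Exact.Defs

/-!
# Distances on a half circle

For a point `x` of the half circle let `θ x = arcsin (β x / ρ) ∈ (- π / 2, π / 2)`, so
`β x = ρ sin (θ x)`, `α x = ρ cos (θ x)` (`α x > 0`, `α x ^ 2 + β x ^ 2 = ρ ^ 2`), and
`dist x y ^ 2 = 2 ρ ^ 2 (1 - cos (θ x - θ y))`; `β x ≤ β y ↔ θ x ≤ θ y`, and `cos` is strictly
decreasing on `[0, π]`.
PROOF of `arc_mono`: `0 ≤ θ y - θ x ≤ θ z - θ x ≤ π`, compare the squares.
PROOF of `arc_inj`: `cos (θ y - θ x) = cos (θ z - θ x)` with both arguments in `[0, π]` (or both in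
`[- π, 0]`), so `θ y = θ z`, `α y = α z`, `β y = β z`, and `dist y z = 0` by `hF.dist_sq`.
PROOF of `far_card_le`: `C₁ = {c ∈ C : r ≤ dist y c, β y ≤ β c}`, `C₂ = {.., β c ≤ β y}`; by
`arc_inj` the map `c ↦ dist y c` is injective on `C₁` and on `C₂`, with values in `D`.
-/

set_option autoImplicit false

namespace Pool.Agent.LargeDist.Exact

open Finset

variable {t α β : E3 → ℝ} {o ρ : ℝ}

private theorem arc_angle (hρ : 0 < ρ) {x : E3} (hx : OnArc t α β o ρ x) :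
    ∃ θ : ℝ, -(Real.pi / 2) < θ ∧ θ < Real.pi / 2 ∧ α x = ρ * Real.cos θ ∧
      β x = ρ * Real.sin θ := by
  have h1 := hx.sq
  have h2 := hx.pos
  have h3 : (β x / ρ) ^ 2 = 1 - (α x / ρ) ^ 2 := by
    rw [div_pow, div_pow]
    field_simp
    linarith
  have h4 : 0 < α x / ρ := div_pos h2 hρ
  have h5 : (β x / ρ) ^ 2 < 1 := by
    rw [h3]
    have : 0 < (α x / ρ) ^ 2 := by positivity
    linarith
  have h6 := abs_lt.1 ((sq_lt_one_iff_abs_lt_one _).1 h5)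
  refine ⟨Real.arcsin (β x / ρ), ?_, ?_, ?_, ?_⟩
  · exact Real.neg_pi_div_two_lt_arcsin.2 h6.1
  · exact Real.arcsin_lt_pi_div_two.2 h6.2
  · rw [Real.cos_arcsin]
    have h7 : 1 - (β x / ρ) ^ 2 = (α x / ρ) ^ 2 := by rw [h3]; ring
    rw [h7, Real.sqrt_sq h4.le]
    field_simp
  · rw [Real.sin_arcsin h6.1.le h6.2.le]
    field_simp

private theorem arc_dist (hF : Frame t α β) {x y : E3} (hx : OnArc t α β o ρ x)
    (hy : OnArc t α β o ρ y) {θ η : ℝ} (h1 : α x = ρ * Real.cos θ) (h2 : β x = ρ * Real.sin θ)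
    (h3 : α y = ρ * Real.cos η) (h4 : β y = ρ * Real.sin η) :
    dist x y ^ 2 = 2 * ρ ^ 2 * (1 - Real.cos (η - θ)) := by
  rw [hF.dist_sq, hx.t, hy.t, h1, h2, h3, h4, Real.cos_sub]
  have h5 := Real.sin_sq_add_cos_sq θ
  have h6 := Real.sin_sq_add_cos_sq η
  linear_combination ρ ^ 2 * h5 + ρ ^ 2 * h6

private theorem arc_le (hρ : 0 < ρ) {θ η : ℝ} (h1 : -(Real.pi / 2) < θ) (h2 : θ < Real.pi / 2)
    (h3 : -(Real.pi / 2) < η) (h4 : η < Real.pi / 2)
    (h : ρ * Real.sin θ ≤ ρ * Real.sin η) : θ ≤ η := by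
  have h5 := le_of_mul_le_mul_left h hρ
  exact (Real.strictMonoOn_sin.le_iff_le ⟨h1.le, h2.le⟩ ⟨h3.le, h4.le⟩).1 h5

theorem arc_mono (hF : Frame t α β) (hρ : 0 < ρ) {x y z : E3} (hx : OnArc t α β o ρ x)
    (hy : OnArc t α β o ρ y) (hz : OnArc t α β o ρ z) (h1 : β x ≤ β y) (h2 : β y ≤ β z) :
    dist x y ≤ dist x z ∧ dist y z ≤ dist x z := by
  obtain ⟨a, ha1, ha2, ha3, ha4⟩ := arc_angle hρ hx
  obtain ⟨b, hb1, hb2, hb3, hb4⟩ := arc_angle hρ hy
  obtain ⟨c, hc1, hc2, hc3, hc4⟩ := arc_angle hρ hz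
  have hab : a ≤ b := by
    rw [ha4, hb4] at h1
    exact arc_le hρ ha1 ha2 hb1 hb2 h1
  have hbc : b ≤ c := by
    rw [hb4, hc4] at h2
    exact arc_le hρ hb1 hb2 hc1 hc2 h2
  have hρ2 : 0 ≤ 2 * ρ ^ 2 := by positivity
  have hxy := arc_dist hF hx hy ha3 ha4 hb3 hb4
  have hxz := arc_dist hF hx hz ha3 ha4 hc3 hc4
  have hyz := arc_dist hF hy hz hb3 hb4 hc3 hc4
  constructor
  · rw [← sq_le_sq₀ dist_nonneg dist_nonneg, hxy, hxz]
    apply mul_le_mul_of_nonneg_left _ hρ2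
    have := Real.cos_le_cos_of_nonneg_of_le_pi (x := b - a) (y := c - a) (by linarith)
      (by linarith) (by linarith)
    linarith
  · rw [← sq_le_sq₀ dist_nonneg dist_nonneg, hyz, hxz]
    apply mul_le_mul_of_nonneg_left _ hρ2
    have := Real.cos_le_cos_of_nonneg_of_le_pi (x := c - b) (y := c - a) (by linarith)
      (by linarith) (by linarith)
    linarith

theorem arc_inj (hF : Frame t α β) (hρ : 0 < ρ) {x y z : E3} (hx : OnArc t α β o ρ x)
    (hy : OnArc t α β o ρ y) (hz : OnArc t α β o ρ z) (h : dist x y = dist x z)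
    (h1 : (β x ≤ β y ∧ β x ≤ β z) ∨ (β y ≤ β x ∧ β z ≤ β x)) : y = z := by
  obtain ⟨a, ha1, ha2, ha3, ha4⟩ := arc_angle hρ hx
  obtain ⟨b, hb1, hb2, hb3, hb4⟩ := arc_angle hρ hy
  obtain ⟨c, hc1, hc2, hc3, hc4⟩ := arc_angle hρ hz
  have hxy := arc_dist hF hx hy ha3 ha4 hb3 hb4
  have hxz := arc_dist hF hx hz ha3 ha4 hc3 hc4
  rw [h, hxz] at hxy
  have hρ2 : 2 * ρ ^ 2 ≠ 0 := by positivity
  have hcos : Real.cos (c - a) = Real.cos (b - a) := by
    have := mul_left_cancel₀ hρ2 hxy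
    linarith
  have hbc : b = c := by
    rw [ha4, hb4, hc4] at h1
    rcases h1 with ⟨h2, h3⟩ | ⟨h2, h3⟩
    · have h4 := arc_le hρ ha1 ha2 hb1 hb2 h2
      have h5 := arc_le hρ ha1 ha2 hc1 hc2 h3
      have h6 := Real.injOn_cos (x₁ := c - a) (x₂ := b - a) ⟨by linarith, by linarith⟩
        ⟨by linarith, by linarith⟩ hcos
      linarith
    · have h4 := arc_le hρ hb1 hb2 ha1 ha2 h2
      have h5 := arc_le hρ hc1 hc2 ha1 ha2 h3
      rw [← Real.cos_neg (c - a), ← Real.cos_neg (b - a)] at hcos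
      have h6 := Real.injOn_cos (x₁ := -(c - a)) (x₂ := -(b - a)) ⟨by linarith, by linarith⟩
        ⟨by linarith, by linarith⟩ hcos
      linarith
  have h7 : dist y z ^ 2 = 0 := by
    rw [hF.dist_sq, hy.t, hz.t, hb3, hb4, hc3, hc4, hbc]
    ring
  exact dist_eq_zero.1 (pow_eq_zero_iff two_ne_zero |>.1 h7)

theorem far_card_le (hF : Frame t α β) (hρ : 0 < ρ) {y : E3} (hy : OnArc t α β o ρ y)
    (C : Finset E3) (hC : ∀ c ∈ C, OnArc t α β o ρ c) (D : Finset ℝ) {r : ℝ}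
    (hD : ∀ c ∈ C, r ≤ dist y c → dist y c ∈ D) :
    (C.filter fun c => r ≤ dist y c).card ≤ 2 * D.card := by
  classical
  have hsub : (C.filter fun c => r ≤ dist y c) ⊆
      (C.filter fun c => r ≤ dist y c ∧ β y ≤ β c) ∪
        (C.filter fun c => r ≤ dist y c ∧ β c ≤ β y) := by
    intro c hc
    rw [mem_filter] at hc
    rw [mem_union, mem_filter, mem_filter]
    rcases le_total (β y) (β c) with h | h
    · exact Or.inl ⟨hc.1, hc.2, h⟩
    · exact Or.inr ⟨hc.1, hc.2, h⟩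
  have h1 : (C.filter fun c => r ≤ dist y c ∧ β y ≤ β c).card ≤ D.card := by
    apply card_le_card_of_injOn (fun c => dist y c)
    · intro c hc
      have hc' := mem_filter.1 hc
      exact hD c hc'.1 hc'.2.1
    · intro c hc c' hc' h
      have hc1 := mem_filter.1 hc
      have hc2 := mem_filter.1 hc'
      exact arc_inj hF hρ hy (hC c hc1.1) (hC c' hc2.1) h (Or.inl ⟨hc1.2.2, hc2.2.2⟩)
  have h2 : (C.filter fun c => r ≤ dist y c ∧ β c ≤ β y).card ≤ D.card := by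
    apply card_le_card_of_injOn (fun c => dist y c)
    · intro c hc
      have hc' := mem_filter.1 hc
      exact hD c hc'.1 hc'.2.1
    · intro c hc c' hc' h
      have hc1 := mem_filter.1 hc
      have hc2 := mem_filter.1 hc'
      exact arc_inj hF hρ hy (hC c hc1.1) (hC c' hc2.1) h (Or.inr ⟨hc1.2.2, hc2.2.2⟩)
  have h3 := card_le_card hsub
  have h4 := card_union_le (C.filter fun c => r ≤ dist y c ∧ β y ≤ β c)
    (C.filter fun c => r ≤ dist y c ∧ β c ≤ β y)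
  omega

end Pool.Agent.LargeDist.Exact
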