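import Pool.Agent.LargeDist.Exact.Defs
import Pool.Agent.LargeDist.Sharp.DivUniform

/-!
# The bound for the numbers of divisors

PROOF of `exists_divB`. `divisors_uniform` (`Sharp/DivUniform.lean`) with `a = 4`, `c = 1024`,
`ε = 1` (note `m ^ 4 ≤ (m + 1) ^ 4`): the numbers of divisors are at most
`exp (A log m / log log m)`, `A = 4 log 2 + 1`; as soon as `log log m ≥ 2 A` this is at most
`exp (log m / 2) = √m`. `T = m / 40` (natural division), for large `m` `T ≥ 1` and
`√m ≤ m / 40 - 1 ≤ T`. Copy the proof of `divisors_half` in `Sharp/DivUniform.lean`.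
-/

set_option autoImplicit false

namespace Pool.Agent.LargeDist.Exact

open Filter Topology

theorem exists_divB : ∃ m₀ : ℕ, ∀ m : ℕ, m₀ ≤ m → ∃ T : ℕ, DivB m T := by
  obtain ⟨k₀, hk₀⟩ := Sharp.divisors_uniform (ε := 1) one_pos 4 1024 (by norm_num) (by norm_num)
  have hl2 : 0 < Real.log 2 := Real.log_pos (by norm_num)
  set A : ℝ := 4 * Real.log 2 + 1 with hA
  have hA0 : 0 < A := by positivity
  have e1 : ∀ᶠ k : ℕ in atTop, 2 * A ≤ Real.log (Real.log (k : ℝ)) :=
    ((Real.tendsto_log_atTop.comp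
      (Real.tendsto_log_atTop.comp tendsto_natCast_atTop_atTop))).eventually_ge_atTop _
  obtain ⟨m₁, hm₁⟩ := eventually_atTop.1 e1
  refine ⟨max (max k₀ m₁) 1600, fun m hm => ⟨m / 40, ?_⟩⟩
  have h1 : k₀ ≤ m := ((le_max_left _ _).trans (le_max_left _ _)).trans hm
  have h2 : m₁ ≤ m := ((le_max_right _ _).trans (le_max_left _ _)).trans hm
  have h3 : 1600 ≤ m := (le_max_right _ _).trans hm
  refine ⟨by omega, by omega, fun N hN hNm => ?_⟩
  have h4 := hk₀ m h1 N hN (hNm.trans (Nat.mul_le_mul_left _ (Nat.pow_le_pow_left (by omega) _)))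
  have h5 := hm₁ m h2
  have hm16 : (1600 : ℝ) ≤ (m : ℝ) := by exact_mod_cast h3
  have hm0 : (0 : ℝ) < (m : ℝ) := by linarith
  have hlog : 0 ≤ Real.log (m : ℝ) := Real.log_nonneg (by linarith)
  have h6 : ((4 : ℕ) * Real.log 2 + 1) * Real.log m / Real.log (Real.log m) ≤ Real.log m / 2 := by
    have h7 : 0 < Real.log (Real.log (m : ℝ)) := by linarith
    have h8 : (((4 : ℕ) : ℝ) * Real.log 2 + 1) = A := by rw [hA]; norm_num
    rw [h8, div_le_iff₀ h7]
    nlinarith
  have h7 : (N.divisors.card : ℝ) ≤ Real.sqrt m := by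
    refine h4.trans ((Real.exp_le_exp.2 h6).trans (le_of_eq ?_))
    rw [← Real.log_sqrt hm0.le, Real.exp_log (Real.sqrt_pos.2 hm0)]
  have h8 : Real.sqrt m * 40 ≤ m := by
    have h9 : (40 : ℝ) ≤ Real.sqrt m := by
      rw [show (40 : ℝ) = Real.sqrt 1600 by
        rw [show (1600 : ℝ) = 40 ^ 2 by norm_num, Real.sqrt_sq (by norm_num)]]
      exact Real.sqrt_le_sqrt hm16
    calc Real.sqrt m * 40 ≤ Real.sqrt m * Real.sqrt m :=
          mul_le_mul_of_nonneg_left h9 (Real.sqrt_nonneg _)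
      _ = m := Real.mul_self_sqrt hm0.le
  rw [Nat.le_div_iff_mul_le (by norm_num)]
  have h9 : (N.divisors.card : ℝ) * 40 ≤ m := by linarith
  exact_mod_cast h9

end Pool.Agent.LargeDist.Exact
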