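import Pool.Agent.LargeDist.Exact.Defs
import Pool.Agent.LargeDist.Sharp.UpperFinal
import Pool.Agent.LargeDist.Sharp.LowerFinal

/-!
# The size of `M 3 k`

PROOF of `exists_max`. `f_three_ge` (`Sharp/LowerFinal.lean`) with `ε = log 4 / 2` (or any
`ε < log 4`): `f 3 k ≥ n`, `n ≥ 2 k / 3 + exp (c log k / log log k)`, and the exponent tends to
infinity (see `uf_large` in `Sharp/UpperFinal.lean`, private: copy it); `f_three_le` (`Dim3.lean`):
`f 3 k ≤ 125 + M 3 k`. So `3 M ≥ 2 k + W` for large `k`. `M 3 k ≤ f 3 k < ⊤` by `M_le_f`,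
`f_three_le_sharp`. A finite supremum of natural numbers is attained (the index type is nonempty:
the empty set is a cone set; `ENat.exists_eq_iSup_of_lt_top` or by hand).
-/

set_option autoImplicit false

namespace Pool.Agent.LargeDist.Exact

open Filter Topology

/-- `log k / log log k` is eventually large -/
private theorem mb_large (C : ℝ) (hC : 0 < C) : ∃ k₀ : ℕ, ∀ k : ℕ, k₀ ≤ k →
    C ≤ Real.log k / Real.log (Real.log k) := by
  have h1 : ∀ᶠ x : ℝ in Filter.atTop, ‖Real.log x‖ ≤ C⁻¹ * ‖id x‖ :=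
    Real.isLittleO_log_id_atTop.bound (inv_pos.2 hC)
  have h2 : Filter.Tendsto (fun k : ℕ => Real.log (k : ℝ)) Filter.atTop Filter.atTop :=
    Real.tendsto_log_atTop.comp tendsto_natCast_atTop_atTop
  have h3 : ∀ᶠ k : ℕ in Filter.atTop, ‖Real.log (Real.log (k : ℝ))‖ ≤ C⁻¹ * ‖Real.log (k : ℝ)‖ :=
    h2.eventually h1
  have h4 : ∀ᶠ k : ℕ in Filter.atTop, (1 : ℝ) < Real.log (k : ℝ) :=
    h2.eventually (Filter.eventually_gt_atTop 1)
  obtain ⟨k₀, hk₀⟩ := Filter.eventually_atTop.1 (h3.and h4)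
  refine ⟨k₀, fun k hk => ?_⟩
  obtain ⟨h5, h6⟩ := hk₀ k hk
  have h7 : 0 < Real.log (Real.log (k : ℝ)) := Real.log_pos h6
  rw [Real.norm_of_nonneg h7.le, Real.norm_of_nonneg (by linarith)] at h5
  rw [le_div_iff₀ h7]
  calc C * Real.log (Real.log (k : ℝ)) ≤ C * (C⁻¹ * Real.log (k : ℝ)) :=
        mul_le_mul_of_nonneg_left h5 hC.le
    _ = Real.log (k : ℝ) := by field_simp

theorem exists_max (W : ℕ) : ∃ k₀ : ℕ, ∀ k : ℕ, k₀ ≤ k → ∃ A : Finset E3,
    IsConeSet 3 k A ∧ M 3 k = (A.card : ℕ∞) ∧ 2 * k + W ≤ 3 * A.card := by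
  have hlog4 : 0 < Real.log 4 := Real.log_pos (by norm_num)
  obtain ⟨k₁, hk₁⟩ := Sharp.f_three_ge (ε := Real.log 4 / 2) (by positivity)
  obtain ⟨k₂, hk₂⟩ := Sharp.f_three_le_sharp (ε := 1) one_pos
  obtain ⟨k₃, hk₃⟩ := mb_large (((W : ℝ) + 375) / (Real.log 4 / 2)) (by positivity)
  refine ⟨max (max k₁ k₂) (max k₃ 1), fun k hk => ?_⟩
  have hkk₁ : k₁ ≤ k := le_trans (le_max_left _ _) (le_trans (le_max_left _ _) hk)
  have hkk₂ : k₂ ≤ k := le_trans (le_max_right _ _) (le_trans (le_max_left _ _) hk)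
  have hkk₃ : k₃ ≤ k := le_trans (le_max_left _ _) (le_trans (le_max_right _ _) hk)
  have hk1 : 1 ≤ k := le_trans (le_max_right _ _) (le_trans (le_max_right _ _) hk)
  obtain ⟨n, hn1, hn2⟩ := hk₁ k hkk₁
  obtain ⟨n', hn', _⟩ := hk₂ k hkk₂
  have hL := hk₃ k hkk₃
  -- the second term is large
  have hbig : (W : ℝ) + 375 ≤
      Real.exp ((Real.log 4 - Real.log 4 / 2) * Real.log k / Real.log (Real.log k)) := by
    have h1 : (W : ℝ) + 375 ≤
        (Real.log 4 - Real.log 4 / 2) * Real.log k / Real.log (Real.log k) := by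
      rw [mul_div_assoc]
      rw [div_le_iff₀ (by positivity)] at hL
      have h2 : Real.log 4 - Real.log 4 / 2 = Real.log 4 / 2 := by ring
      rw [h2, mul_comm]
      exact hL
    refine h1.trans ?_
    have := Real.add_one_le_exp
      ((Real.log 4 - Real.log 4 / 2) * Real.log k / Real.log (Real.log k))
    linarith
  have hn3 : 2 * (k : ℝ) / 3 + (W + 375) ≤ n := by linarith
  have hMlt : M 3 k < ⊤ :=
    lt_of_le_of_lt ((M_le_f 3 k hk1).trans hn') (ENat.natCast_lt_top n')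
  have hle : (n : ℕ∞) ≤ 5 ^ 3 + M 3 k := hn1.trans (f_three_le k hk1)
  have hnat : ∀ N : ℕ, M 3 k = (N : ℕ∞) → 2 * k + W ≤ 3 * N := by
    intro N hN
    rw [hN] at hle
    have h1 : n ≤ 5 ^ 3 + N := by exact_mod_cast hle
    have h2 : (n : ℝ) ≤ 125 + N := by
      have : ((n : ℕ) : ℝ) ≤ ((5 ^ 3 + N : ℕ) : ℝ) := by exact_mod_cast h1
      push_cast at this
      linarith
    have h3 : (2 * k + W : ℝ) ≤ 3 * N := by
      have hW : (0 : ℝ) ≤ W := Nat.cast_nonneg W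
      linarith
    exact_mod_cast h3
  rcases isEmpty_or_nonempty
      {A : Finset (EuclideanSpace ℝ (Fin 3)) // IsConeSet 3 k A} with hemp | hne
  · exfalso
    have h0 : M 3 k = ((0 : ℕ) : ℕ∞) := by
      unfold M
      rw [iSup_of_empty]
      rfl
    have := hnat 0 h0
    omega
  · obtain ⟨A, hA⟩ := ENat.exists_eq_iSup_of_lt_top
      (f := fun A : {A : Finset (EuclideanSpace ℝ (Fin 3)) // IsConeSet 3 k A} =>
        (A.1.card : ℕ∞)) hMlt
    have hM : M 3 k = (A.1.card : ℕ∞) := hA.symm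
    exact ⟨A.1, A.2, hM, hnat _ hM⟩

end Pool.Agent.LargeDist.Exact
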