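import Pool.Agent.LargeDist.Exact.Near
import Pool.Agent.LargeDist.Exact.MBound
import Pool.Agent.LargeDist.Exact.DivBound

/-!
# The arithmetic form of `M 3 k`

PROOF of `Mz_le`. Let `B`, `N > 0` with `card (sqs B N) ≤ k`. `A` is the set of the points `b e₀`,
`b ∈ B`, `y = √N e₁` (`EuclideanSpace.single`), see `le_M_three_sharp` (`Sharp/LowerCone.lean`)
for the same construction. `card A = card B`, the rank of `A` is at most one (`A` is in the line
`ℝ e₀`),
`y ∉ affineSpan A` (the coordinate `1` vanishes on `A`), and the square of every distance of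
`insert y A` is (the cast of) an element of `sqs B N`, so there are at most `k` distances
(`s ↦ √s` maps `sqs B N` onto a set which contains the distances).
PROOF of `le_Mz`. For large `k` let `A` be as in `exists_max 4000`, `y` as in `IsConeSet`, and apply
`cone_frame` with `X = B = A`, `Δ = dists (insert y A)`: `t, a, g, j, p, N`. Let
`B' = (A.image t).image (fun b => 2 * j b - p)`; `b ↦ 2 * j b - p` is injective on `A.image t` by
`Crd`, so `card B' = card A`. Every element `s` of `sqs B' N` is `(2 δ / g) ^ 2` for a `δ ∈ Δ`: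
`(2 j b - 2 j b') ^ 2 = (2 |b - b'| / g) ^ 2`, and
`(2 j b - p) ^ 2 + N = 4 ((b - t y) ^ 2 + (α y) ^ 2) / g ^ 2` (`p g = 2 (t y - a)`,
`b - a = j b g`). So `card (sqs B' N) ≤ card Δ ≤ k`, and `M 3 k = card A = card B' ≤ Mz k`.
-/

set_option autoImplicit false

namespace Pool.Agent.LargeDist.Exact

open Finset Module

theorem Mz_le (k : ℕ) : Mz k ≤ M 3 k := by
  classical
  unfold Mz
  refine iSup_le ?_
  rintro ⟨⟨B, N⟩, hNpos, hk⟩
  dsimp only at hNpos hk
  have hsq : 0 < Real.sqrt (N : ℝ) := Real.sqrt_pos.2 (by exact_mod_cast hNpos)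
  have hsq2 : Real.sqrt (N : ℝ) ^ 2 = (N : ℝ) := Real.sq_sqrt (by positivity)
  let e₁ : EuclideanSpace ℝ (Fin 3) := EuclideanSpace.single 0 1
  let e₂ : EuclideanSpace ℝ (Fin 3) := EuclideanSpace.single 1 1
  let p : ℤ → EuclideanSpace ℝ (Fin 3) := fun i => (i : ℝ) • e₁
  let y : EuclideanSpace ℝ (Fin 3) := Real.sqrt (N : ℝ) • e₂
  have hpp : ∀ i j : ℤ, dist (p i) (p j) = |(i : ℝ) - j| := by
    intro i j
    simp only [p, e₁]
    rw [dist_eq_norm, ← sub_smul, norm_smul, PiLp.norm_single, norm_one, mul_one,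
      Real.norm_eq_abs]
  have hpy : ∀ i : ℤ, dist (p i) y = Real.sqrt ((i : ℝ) ^ 2 + N) := by
    intro i
    rw [EuclideanSpace.dist_eq]
    congr 1
    rw [Fin.sum_univ_three]
    simp [p, y, e₁, e₂, Real.dist_eq, sq_abs, hsq2]
  have hinj : Function.Injective p := by
    intro i j hij
    have h1 := hpp i j
    rw [hij, dist_self] at h1
    have h2 := abs_eq_zero.1 h1.symm
    have h3 : (i : ℝ) = j := by linarith
    exact_mod_cast h3
  set A : Finset (EuclideanSpace ℝ (Fin 3)) := B.image p with hA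
  have hAcard : A.card = B.card := by
    rw [hA, Finset.card_image_of_injective _ hinj]
  have hspan : affineSpan ℝ (A : Set (EuclideanSpace ℝ (Fin 3))) ≤
      (ℝ ∙ e₁ : Submodule ℝ (EuclideanSpace ℝ (Fin 3))).toAffineSubspace := by
    rw [affineSpan_le]
    intro a ha
    obtain ⟨i, -, rfl⟩ := Finset.mem_image.1 (Finset.mem_coe.1 ha)
    exact Submodule.smul_mem _ _ (Submodule.mem_span_singleton_self e₁)
  have hvs : vectorSpan ℝ (A : Set (EuclideanSpace ℝ (Fin 3))) ≤ (ℝ ∙ e₁) := by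
    have := AffineSubspace.direction_le hspan
    rwa [direction_affineSpan, Submodule.toAffineSubspace_direction] at this
  have hy : y ∉ affineSpan ℝ (A : Set (EuclideanSpace ℝ (Fin 3))) := by
    intro hmem
    have h1 : y ∈ (ℝ ∙ e₁ : Submodule ℝ (EuclideanSpace ℝ (Fin 3))) := hspan hmem
    obtain ⟨t, ht⟩ := Submodule.mem_span_singleton.1 h1
    have h2 := congrFun (congrArg (fun v : EuclideanSpace ℝ (Fin 3) => v.ofLp) ht) 1
    have h3 : (0 : ℝ) = Real.sqrt (N : ℝ) := by simpa [y, e₁, e₂] using h2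
    exact absurd h3 hsq.ne
  have hcone : IsConeSet 3 k A := by
    refine ⟨?_, y, hy, ?_⟩
    · have h1 := Submodule.finrank_mono hvs
      have h2 : finrank ℝ (ℝ ∙ e₁ : Submodule ℝ (EuclideanSpace ℝ (Fin 3))) ≤ 1 := by
        refine (finrank_span_le_card ({e₁} : Set (EuclideanSpace ℝ (Fin 3)))).trans ?_
        simp
      omega
    · have hsub : dists (insert y A) ⊆ (sqs B N).image (fun s : ℤ => Real.sqrt (s : ℝ)) := by
        have hmix : ∀ a ∈ A, dist a y ∈ (sqs B N).image (fun s : ℤ => Real.sqrt (s : ℝ)) := by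
          intro a ha
          obtain ⟨i, hi, rfl⟩ := Finset.mem_image.1 ha
          rw [hpy]
          refine Finset.mem_image.2 ⟨i ^ 2 + N, ?_, ?_⟩
          · exact Finset.mem_union_right _ (Finset.mem_image.2 ⟨i, hi, rfl⟩)
          · push_cast
            rfl
        intro t ht
        obtain ⟨x, hx, z, hz, hxz, rfl⟩ := mem_dists.1 ht
        rw [Finset.mem_insert] at hx hz
        rcases hx with hx | hx <;> rcases hz with hz | hz
        · exact absurd (hx.trans hz.symm) hxz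
        · rw [hx, dist_comm]; exact hmix z hz
        · rw [hz]; exact hmix x hx
        · obtain ⟨i, hi, rfl⟩ := Finset.mem_image.1 hx
          obtain ⟨j, hj, rfl⟩ := Finset.mem_image.1 hz
          have hij : i ≠ j := fun h => hxz (congrArg p h)
          rw [hpp]
          refine Finset.mem_image.2 ⟨(i - j) ^ 2, ?_, ?_⟩
          · exact Finset.mem_union_left _ (Finset.mem_image.2
              ⟨(i, j), Finset.mem_offDiag.2 ⟨hi, hj, hij⟩, rfl⟩)
          · push_cast
            exact Real.sqrt_sq_eq_abs _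
      exact (Finset.card_le_card hsub).trans (Finset.card_image_le.trans hk)
  have h5 : ((B.card : ℕ) : ℕ∞) = (A.card : ℕ∞) := by rw [hAcard]
  show ((B.card : ℕ) : ℕ∞) ≤ M 3 k
  rw [h5]
  unfold M
  exact le_iSup (fun A : {A : Finset (EuclideanSpace ℝ (Fin 3)) // IsConeSet 3 k A} =>
    (A.1.card : ℕ∞)) ⟨A, hcone⟩

theorem le_Mz : ∃ k₀ : ℕ, ∀ k : ℕ, k₀ ≤ k → M 3 k ≤ Mz k := by
  classical
  obtain ⟨k₁, hk₁⟩ := exists_max 4000
  obtain ⟨m₀, hm₀⟩ := exists_divB
  refine ⟨max k₁ (3 * m₀), fun k hk => ?_⟩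
  obtain ⟨A, ⟨hrank, y, hy, hcd⟩, hM, hW⟩ := hk₁ k ((le_max_left _ _).trans hk)
  have hk3 : 3 * m₀ ≤ k := (le_max_right _ _).trans hk
  obtain ⟨T, hT⟩ := hm₀ A.card (by omega)
  have hAne : A.Nonempty := Finset.card_pos.1 (by omega)
  have hyA : ∀ x ∈ A, x ≠ y := by
    rintro x hx rfl
    exact hy (mem_affineSpan ℝ (Finset.mem_coe.2 hx))
  obtain ⟨t, α, β, a, g, j, p, N, hF, hA0, hβy, -, hcard, hCrd, hp, -, -, hN0, hN, -⟩ :=
    cone_frame hAne hrank hy (Finset.Subset.refl A) (Δ := dists (insert y A))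
      (fun x hx z hz hxz => mem_dists.2 ⟨x, Finset.mem_insert_of_mem hx, z,
        Finset.mem_insert_of_mem hz, hxz, rfl⟩)
      (fun x hx => mem_dists.2 ⟨x, Finset.mem_insert_of_mem hx, y, Finset.mem_insert_self _ _,
        hyA x hx, rfl⟩) hcd hT hW
  have hg := hCrd.pos
  have hg0 : g ≠ 0 := hg.ne'
  have hinj : Set.InjOn (fun b : ℝ => 2 * j b - p) (A.image t) := by
    intro b hb b' hb' hbb
    have h1 : 2 * j b - p = 2 * j b' - p := hbb
    have h2 : j b = j b' := by omega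
    rw [hCrd.eq b (Finset.mem_coe.1 hb), hCrd.eq b' (Finset.mem_coe.1 hb'), h2]
  obtain ⟨B', hB'⟩ : ∃ B' : Finset ℤ, B' = (A.image t).image (fun b : ℝ => 2 * j b - p) :=
    ⟨_, rfl⟩
  have hB'card : B'.card = A.card := by
    rw [hB', Finset.card_image_of_injOn hinj, hcard]
  have hmem : ∀ c ∈ B', ∃ x ∈ A, (c : ℝ) * g = 2 * (t x - t y) := by
    intro c hc
    rw [hB'] at hc
    obtain ⟨b, hb, rfl⟩ := Finset.mem_image.1 hc
    obtain ⟨x, hx, rfl⟩ := Finset.mem_image.1 hb
    refine ⟨x, hx, ?_⟩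
    have h1 := hCrd.eq (t x) hb
    push_cast
    linear_combination (-2) * h1 + hp
  have hkey : ∀ s ∈ sqs B' N, (s : ℝ) ∈
      (dists (insert y A)).image (fun δ : ℝ => (2 * δ / g) ^ 2) := by
    intro s hs
    rcases Finset.mem_union.1 hs with hs | hs
    · obtain ⟨⟨c, c'⟩, hcc, rfl⟩ := Finset.mem_image.1 hs
      obtain ⟨hc, hc', hne⟩ := Finset.mem_offDiag.1 hcc
      obtain ⟨x, hx, h1⟩ := hmem c hc
      obtain ⟨x', hx', h1'⟩ := hmem c' hc'
      have hxx : x ≠ x' := by
        rintro rfl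
        have h2 : (c : ℝ) * g = c' * g := h1.trans h1'.symm
        have h3 : (c : ℝ) = c' := mul_right_cancel₀ hg0 h2
        exact hne (by exact_mod_cast h3)
      refine Finset.mem_image.2 ⟨dist x x', mem_dists.2 ⟨x, Finset.mem_insert_of_mem hx, x',
        Finset.mem_insert_of_mem hx', hxx, rfl⟩, ?_⟩
      have h2 := hF.dist_sq x x'
      rw [(hA0 x hx).1, (hA0 x hx).2, (hA0 x' hx').1, (hA0 x' hx').2] at h2
      have h3 : (2 * dist x x' / g) ^ 2 = 4 * dist x x' ^ 2 / g ^ 2 := by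
        rw [div_pow]
        ring
      show (2 * dist x x' / g) ^ 2 = (((c - c') ^ 2 : ℤ) : ℝ)
      rw [h3, h2, div_eq_iff (pow_ne_zero 2 hg0)]
      push_cast
      linear_combination (-(c * g - c' * g + 2 * (t x - t y) - 2 * (t x' - t y))) * (h1 - h1')
    · obtain ⟨c, hc, rfl⟩ := Finset.mem_image.1 hs
      obtain ⟨x, hx, h1⟩ := hmem c hc
      refine Finset.mem_image.2 ⟨dist x y, mem_dists.2 ⟨x, Finset.mem_insert_of_mem hx, y,
        Finset.mem_insert_self _ _, hyA x hx, rfl⟩, ?_⟩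
      have h2 := hF.dist_sq x y
      rw [(hA0 x hx).1, (hA0 x hx).2, hβy] at h2
      have h3 : (2 * dist x y / g) ^ 2 = 4 * dist x y ^ 2 / g ^ 2 := by
        rw [div_pow]
        ring
      show (2 * dist x y / g) ^ 2 = ((c ^ 2 + N : ℤ) : ℝ)
      rw [h3, h2, div_eq_iff (pow_ne_zero 2 hg0)]
      push_cast
      linear_combination (-(c * g + 2 * (t x - t y))) * h1 + hN
  have hcardk : (sqs B' N).card ≤ k := by
    have h1 : (sqs B' N).card = ((sqs B' N).image (fun s : ℤ => (s : ℝ))).card :=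
      (Finset.card_image_of_injective _ Int.cast_injective).symm
    rw [h1]
    refine (Finset.card_le_card (t := (dists (insert y A)).image
      (fun δ : ℝ => (2 * δ / g) ^ 2)) ?_).trans (Finset.card_image_le.trans hcd)
    intro r hr
    obtain ⟨s, hs, rfl⟩ := Finset.mem_image.1 hr
    exact hkey s hs
  rw [hM, ← hB'card]
  unfold Mz
  exact le_iSup (fun p : {p : Finset ℤ × ℕ // 0 < p.2 ∧ (sqs p.1 p.2).card ≤ k} =>
    (p.1.1.card : ℕ∞)) ⟨(B', N), hN0, hcardk⟩

end Pool.Agent.LargeDist.Exact
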