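import Pool.Agent.LargeDist.Exact.Defs

/-!
# Coincidences of the distances to a point with the differences

PROOF of `card_rd_le`. Let `m = card B`, `o' = (o - a) / g`, `ρ' = ρ / g > 0`. As in the proof of
`line_bound_sharp` (`Sharp/LineSharp.lean`): `uu o ρ b ^ 2 = g ^ 2 ((j b - o') ^ 2 + ρ' ^ 2)`; for
`b` in the set `C` on the left side there is an integer `0 < δ ≤ 2 m` with
`(j b - o') ^ 2 + ρ' ^ 2 = δ ^ 2`. If `card C ≤ 1` use `hT.one`. Otherwise take `b₁ ≠ b₂` in `C`; then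
`2 o' (j b₂ - j b₁) = j b₂ ^ 2 - j b₁ ^ 2 - δ₂ ^ 2 + δ₁ ^ 2` is an integer, so `o' = P / q` with
`q = 2 |j b₂ - j b₁| ≤ 4 m`; `coincidences_le` (`Sharp/Coinc.lean`) with `R = 2 m`
(`q ^ 2 R ^ 2 ≤ 64 m ^ 4`) for the set of the `j b`, `b ∈ C` (`j` is injective on `B`), and
`hT.le`.
-/

set_option autoImplicit false

namespace Pool.Agent.LargeDist.Exact

open Finset

open scoped Classical in
theorem card_rd_le {B : Finset ℝ} {a g : ℝ} {j : ℝ → ℤ} (hc : Crd B a g j) {T : ℕ}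
    (hT : DivB B.card T) (o : ℝ) {ρ : ℝ} (hρ : 0 < ρ) :
    (B.filter fun b => uu o ρ b ∈ rd B).card ≤ T := by
  have hg := hc.pos
  have hg0 : g ≠ 0 := hg.ne'
  obtain ⟨m, hm⟩ : ∃ m, m = B.card := ⟨_, rfl⟩
  obtain ⟨o', ho'⟩ : ∃ o' : ℝ, o' = (o - a) / g := ⟨_, rfl⟩
  obtain ⟨ρ', hρ'⟩ : ∃ ρ' : ℝ, ρ' = ρ / g := ⟨_, rfl⟩
  have hρ0 : 0 < ρ' := by
    rw [hρ']
    exact div_pos hρ hg
  have ho : o = a + o' * g := by rw [ho']; field_simp; ring
  have hρe : ρ = ρ' * g := by rw [hρ']; field_simp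
  have hjinj : ∀ b ∈ B, ∀ b' ∈ B, j b = j b' → b = b' := by
    intro b hb b' hb' h
    rw [hc.eq b hb, hc.eq b' hb', h]
  have huu : ∀ b ∈ B, uu o ρ b ^ 2 = g ^ 2 * (((j b : ℝ) - o') ^ 2 + ρ' ^ 2) := by
    intro b hb
    rw [uu_sq]
    have e : b - o = ((j b : ℝ) - o') * g := by
      rw [ho]
      have := hc.eq b hb
      linarith
    rw [e, hρe]
    ring
  obtain ⟨C, hC⟩ : ∃ C, C = B.filter (fun b => uu o ρ b ∈ rd B) := ⟨_, rfl⟩
  rw [← hC]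
  have hCB : ∀ b ∈ C, b ∈ B := fun b hb => by
    rw [hC] at hb
    exact (Finset.mem_filter.1 hb).1
  have hCδ : ∀ b ∈ C, ∃ δ : ℤ, 0 < δ ∧ δ ≤ ((2 * m : ℕ) : ℤ) ∧
      ((j b : ℝ) - o') ^ 2 + ρ' ^ 2 = (δ : ℝ) ^ 2 := by
    intro b hb
    rw [hC] at hb
    obtain ⟨hbB, hbr⟩ := Finset.mem_filter.1 hb
    obtain ⟨x, hx, y, hy, hxy, h⟩ := mem_rd.1 hbr
    have hjx := hc.nonneg x hx
    have hjy := hc.nonneg y hy
    have hjx' := hc.le x hx
    have hjy' := hc.le y hy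
    have hne : j x ≠ j y := fun h' => hxy (hjinj x hx y hy h')
    refine ⟨|j x - j y|, abs_pos.2 (sub_ne_zero.2 hne), ?_, ?_⟩
    · rw [abs_le, hm]
      push_cast
      constructor <;> omega
    · have e1 : uu o ρ b ^ 2 = (x - y) ^ 2 := by rw [← h, sq_abs]
      have e2 : x - y = ((j x : ℝ) - j y) * g := by
        have h3 := hc.eq x hx
        have h4 := hc.eq y hy
        linarith
      rw [huu b hbB, e2, mul_pow, mul_comm] at e1
      have e3 := mul_right_cancel₀ (pow_ne_zero 2 hg0) e1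
      rw [e3]
      push_cast
      rw [sq_abs]
  rcases Nat.lt_or_ge C.card 2 with hC1 | hC2
  · have := hT.one
    omega
  have hcardC : (C.image (fun b => j b)).card = C.card := by
    apply Finset.card_image_of_injOn
    intro b hb b' hb' h
    exact hjinj b (hCB b hb) b' (hCB b' hb') h
  obtain ⟨b₁, hb₁, b₂, hb₂, hne⟩ := Finset.one_lt_card.1 (show 1 < C.card by omega)
  obtain ⟨δ₁, -, -, e₁⟩ := hCδ b₁ hb₁
  obtain ⟨δ₂, -, -, e₂⟩ := hCδ b₂ hb₂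
  obtain ⟨d, hd⟩ : ∃ d : ℤ, d = j b₂ - j b₁ := ⟨_, rfl⟩
  have hd0 : d ≠ 0 := by
    intro h
    apply hne
    apply hjinj b₁ (hCB _ hb₁) b₂ (hCB _ hb₂)
    omega
  obtain ⟨P, hP⟩ : ∃ P : ℤ, P = (j b₂) ^ 2 - (j b₁) ^ 2 - δ₂ ^ 2 + δ₁ ^ 2 := ⟨_, rfl⟩
  have hPd : 2 * o' * (d : ℝ) = P := by
    rw [hP, hd]
    push_cast
    nlinarith
  have hq0 : 0 < (2 * d).natAbs := Int.natAbs_pos.2 (by omega)
  have hsgn : ((2 * d).sign : ℝ) * (((2 * d).natAbs : ℕ) : ℝ) = 2 * d := by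
    have h3 := Int.sign_mul_natAbs (2 * d)
    have h4 : (((2 * d).sign : ℤ) : ℝ) * ((((2 * d).natAbs : ℕ) : ℤ) : ℝ) =
        ((2 * d : ℤ) : ℝ) := by
      rw [← Int.cast_mul, h3]
    rw [Int.cast_natCast] at h4
    rw [h4]
    push_cast
    rfl
  have hop : o' = ((P * (2 * d).sign : ℤ) : ℝ) / (((2 * d).natAbs : ℕ) : ℝ) := by
    have hqr : (((2 * d).natAbs : ℕ) : ℝ) ≠ 0 := by exact_mod_cast hq0.ne'
    have hs2 : ((2 * d).sign : ℝ) * ((2 * d).sign : ℝ) = 1 := by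
      have h3 : (2 * d).sign * (2 * d).sign = 1 := by
        rcases lt_or_gt_of_ne (show 2 * d ≠ 0 by omega) with h | h
        · rw [Int.sign_eq_neg_one_of_neg h]; norm_num
        · rw [Int.sign_eq_one_of_pos h]; norm_num
      exact_mod_cast h3
    rw [eq_div_iff hqr]
    push_cast
    rw [← hPd]
    calc o' * (((2 * d).natAbs : ℕ) : ℝ) =
          (((2 * d).sign : ℝ) * ((2 * d).sign : ℝ)) * (o' * (((2 * d).natAbs : ℕ) : ℝ)) := by
            rw [hs2, one_mul]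
      _ = o' * (((2 * d).sign : ℝ) * (((2 * d).natAbs : ℕ) : ℝ)) * ((2 * d).sign : ℝ) := by ring
      _ = _ := by rw [hsgn]; ring
  have hq4 : (2 * d).natAbs ≤ 4 * m := by
    have h3 := hc.nonneg b₁ (hCB _ hb₁)
    have h4 := hc.nonneg b₂ (hCB _ hb₂)
    have h5 := hc.le b₁ (hCB _ hb₁)
    have h6 := hc.le b₂ (hCB _ hb₂)
    omega
  have hle := Sharp.coincidences_le (2 * m) (2 * d).natAbs (P * (2 * d).sign) hq0 ρ' hρ0 T
    (fun N hN hN' => hT.le N hN (hN'.trans (by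
      calc (2 * d).natAbs ^ 2 * (2 * m) ^ 2 ≤ (4 * m) ^ 2 * (2 * m) ^ 2 :=
            Nat.mul_le_mul_right _ (Nat.pow_le_pow_left hq4 2)
        _ = 64 * m ^ 4 := by ring
        _ ≤ 1024 * B.card ^ 4 := by
            rw [hm]
            exact Nat.mul_le_mul_right _ (by norm_num)))) (C.image (fun b => j b)) (by
      intro b' hb'
      obtain ⟨b, hb, rfl⟩ := Finset.mem_image.1 hb'
      obtain ⟨δ, d1, d2, d3⟩ := hCδ b hb
      refine ⟨δ, d1, d2, ?_⟩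
      rw [← hop, ← d3])
  rw [hcardC] at hle
  exact hle

end Pool.Agent.LargeDist.Exact
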