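import Pool.Agent.LargeDist.Dim3
import Pool.Agent.LargeDist.Sharp.LineSharp

/-!
# `f(3,k) = M(3,k) + 2`: definitions

`Crd B a g j`: the finite set `B` of `m` real numbers lies in the progression `a + g j`,
`0 ≤ j ≤ 2 m`. `DivB m T`: `T` bounds the numbers of divisors of all numbers up to `1024 m ^ 4` and
is at most `m / 40`. `Frame t α β`: cartesian coordinates of `ℝ³`. `OnArc`: the half circle
`t = o`, `α ^ 2 + β ^ 2 = ρ ^ 2`, `0 < α`. `sqs B N`: the numbers `(b - b') ^ 2` and `b ^ 2 + N`.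
-/

set_option autoImplicit false

namespace Pool.Agent.LargeDist.Exact

/-- the space -/
abbrev E3 := EuclideanSpace ℝ (Fin 3)

/-- `B` lies in a progression of length `2 m + 1` -/
structure Crd (B : Finset ℝ) (a g : ℝ) (j : ℝ → ℤ) : Prop where
  pos : 0 < g
  eq : ∀ b ∈ B, b = a + j b * g
  nonneg : ∀ b ∈ B, 0 ≤ j b
  le : ∀ b ∈ B, j b ≤ 2 * B.card

/-- a small bound for the numbers of divisors -/
structure DivB (m T : ℕ) : Prop where
  one : 1 ≤ T
  small : 40 * T ≤ m
  le : ∀ N : ℕ, 0 < N → N ≤ 1024 * m ^ 4 → N.divisors.card ≤ T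

/-- cartesian coordinates -/
structure Frame (t α β : E3 → ℝ) : Prop where
  dist_sq : ∀ x y, dist x y ^ 2 = (t x - t y) ^ 2 + (α x - α y) ^ 2 + (β x - β y) ^ 2
  surj : ∀ u v w : ℝ, ∃ x, t x = u ∧ α x = v ∧ β x = w

/-- a point of the open half circle with centre `(o, 0, 0)` and radius `ρ` in the plane `t = o` -/
structure OnArc (t α β : E3 → ℝ) (o ρ : ℝ) (x : E3) : Prop where
  t : t x = o
  sq : α x ^ 2 + β x ^ 2 = ρ ^ 2
  pos : 0 < α x

/-- the squares of the distances of the points `b ∈ B` of a line and a point over `0` with the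
square of the height `N` -/
def sqs (B : Finset ℤ) (N : ℕ) : Finset ℤ :=
  B.offDiag.image (fun p => (p.1 - p.2) ^ 2) ∪ B.image (fun b => b ^ 2 + N)

/-- The largest size of a finite set `B` of integers for which there is a positive integer `N` such
that there are at most `k` distinct numbers among the `(b - b') ^ 2`, `b ≠ b'` in `B`, and the
`b ^ 2 + N`, `b ∈ B`. -/
noncomputable def Mz (k : ℕ) : ℕ∞ :=
  ⨆ p : {p : Finset ℤ × ℕ // 0 < p.2 ∧ (sqs p.1 p.2).card ≤ k}, (p.1.1.card : ℕ∞)

end Pool.Agent.LargeDist.Exact
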