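import Pool.Agent.LargeDist.Exact.SqSub
import Pool.Agent.LargeDist.Exact.Defs

/-!
# Coincidences of the distances to two points at different heights

PROOF of `card_uu_le`. Let `m = card B`, `o' = (o - a) / g = p / 2 ∈ [0, 2 m]`,
`o₂' = (o₂ - a) / g`, so `|o₂' - o'| ≤ 2 m`, `|o₂'| ≤ 4 m`, `ρ' = ρ / g`, `ρ₂' = ρ₂ / g`. Let `J` be
the set on the left side. For `b ∈ J` there is `b' ∈ B` with
`(j b - o₂') ^ 2 + ρ₂' ^ 2 = (j b' - o') ^ 2 + ρ' ^ 2` (squares, `uu_sq`, divide by `g ^ 2`); choose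
`b' = s b`. If `card J ≤ 1` use `hT.one`. Otherwise let `b₁ ≠ b₂` in `J`; subtracting the two
equations, `2 o₂' (j b₁ - j b₂) = j b₁ ^ 2 - j b₂ ^ 2 - j (s b₁) ^ 2 + j (s b₂) ^ 2 +
p (j (s b₁) - j (s b₂))` is an integer. So with `q = 2 |j b₁ - j b₂| ≤ 4 m` (even) `q o₂' = P` and
`q o' = Q` are integers. `c = (q j b₁ - P) ^ 2 - (q j (s b₁) - Q) ^ 2 = q ^ 2 (ρ' ^ 2 - ρ₂' ^ 2)` is
an integer, not zero as `ρ ≠ ρ₂` are positive, and `|c| ≤ max ((24 m ^ 2) ^ 2) ((8 m ^ 2) ^ 2) ≤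
1024 m ^ 4`. `card_sq_sub_le` for the set of the `j b`, `b ∈ J` (`j` is injective on `B`), with
`x i = q i - P`, `y i = q j (s b) - Q` for `i = j b`.
-/

set_option autoImplicit false

namespace Pool.Agent.LargeDist.Exact

open Finset

open scoped Classical in
theorem card_uu_le {B : Finset ℝ} {a g : ℝ} {j : ℝ → ℤ} (hc : Crd B a g j) {T : ℕ}
    (hT : DivB B.card T) {o ρ o₂ ρ₂ : ℝ} (hρ : 0 < ρ) (hρ₂ : 0 < ρ₂) {p : ℤ}
    (hp : 2 * (o - a) = p * g) (hp0 : 0 ≤ p) (hp1 : p ≤ 4 * B.card)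
    (ho : |o₂ - o| ≤ 2 * B.card * g) (hne : ρ₂ ≠ ρ) :
    (B.filter fun b => uu o₂ ρ₂ b ∈ B.image (uu o ρ)).card ≤ 2 * T := by
  set J := B.filter fun b => uu o₂ ρ₂ b ∈ B.image (uu o ρ) with hJ
  set m := B.card with hm
  have hg := hc.pos
  have hJB : ∀ b ∈ J, b ∈ B := fun b hb => (Finset.mem_filter.1 hb).1
  have hex : ∀ b : ℝ, ∃ b' : ℝ, b ∈ J → b' ∈ B ∧ uu o ρ b' = uu o₂ ρ₂ b := by
    intro b
    by_cases hb : b ∈ J
    · obtain ⟨b', hb', h⟩ := Finset.mem_image.1 (Finset.mem_filter.1 hb).2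
      exact ⟨b', fun _ => ⟨hb', h⟩⟩
    · exact ⟨0, fun h => absurd h hb⟩
  choose s hs using hex
  by_cases hone : J.card ≤ 1
  · have := hT.one
    omega
  push Not at hone
  obtain ⟨b₁, hb₁, b₂, hb₂, hb⟩ := Finset.one_lt_card.1 hone
  -- the basic equation
  have hkey : ∀ b ∈ J, ((j b : ℝ) * g - (o₂ - a)) ^ 2 - ((j (s b) : ℝ) * g - p * g / 2) ^ 2 =
      ρ ^ 2 - ρ₂ ^ 2 := by
    intro b hb
    obtain ⟨h1, h2⟩ := hs b hb
    have h3 := congrArg (fun t => t ^ 2) h2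
    simp only [uu_sq] at h3
    have h4 : b - o₂ = (j b : ℝ) * g - (o₂ - a) := by
      have := hc.eq b (hJB b hb)
      linarith
    have h5 : s b - o = (j (s b) : ℝ) * g - p * g / 2 := by
      have := hc.eq (s b) h1
      linarith
    rw [h4, h5] at h3
    linarith
  set d : ℤ := j b₁ - j b₂ with hd
  set K : ℤ := (j b₁ ^ 2 - j b₂ ^ 2) - (j (s b₁) ^ 2 - j (s b₂) ^ 2) + p * (j (s b₁) - j (s b₂))
    with hK
  have hd0 : d ≠ 0 := by
    intro h0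
    apply hb
    rw [hc.eq b₁ (hJB _ hb₁), hc.eq b₂ (hJB _ hb₂)]
    have : j b₁ = j b₂ := by omega
    rw [this]
  have hK1 : (2 * d : ℝ) * (o₂ - a) = K * g := by
    have e1 := hkey b₁ hb₁
    have e2 := hkey b₂ hb₂
    have e3 : g * ((2 * d : ℝ) * (o₂ - a) - K * g) = 0 := by
      rw [hd, hK]
      push_cast
      linear_combination e2 - e1
    rcases mul_eq_zero.1 e3 with h | h
    · exact absurd h hg.ne'
    · linarith
  have hc1 : ∀ b ∈ J, g ^ 2 * (((2 * d * j b - K) ^ 2 - (2 * d * j (s b) - d * p) ^ 2 : ℤ) : ℝ) =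
      (2 * d : ℝ) ^ 2 * (ρ ^ 2 - ρ₂ ^ 2) := by
    intro b hb
    rw [← hkey b hb]
    push_cast
    have e1 : g * ((2 * d : ℝ) * j b - K) = 2 * d * (j b * g - (o₂ - a)) := by
      rw [mul_sub, mul_sub, hK1]
      ring
    have e2 : g * ((2 * d : ℝ) * j (s b) - d * p) = 2 * d * (j (s b) * g - p * g / 2) := by
      ring
    have e3 : g ^ 2 * (((2 * d : ℝ) * j b - K) ^ 2 - (2 * d * j (s b) - d * p) ^ 2) =
        (g * ((2 * d : ℝ) * j b - K)) ^ 2 - (g * ((2 * d : ℝ) * j (s b) - d * p)) ^ 2 := by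
      ring
    rw [e3, e1, e2]
    ring
  set c : ℤ := (2 * d * j b₁ - K) ^ 2 - (2 * d * j (s b₁) - d * p) ^ 2 with hcdef
  have hc2 : ∀ b ∈ J, (2 * d * j b - K) ^ 2 - (2 * d * j (s b) - d * p) ^ 2 = c := by
    intro b hb
    have e1 := hc1 b hb
    have e2 := hc1 b₁ hb₁
    rw [← e2] at e1
    have e3 := mul_left_cancel₀ (pow_ne_zero 2 hg.ne') e1
    exact_mod_cast e3
  have hρρ : ρ ^ 2 - ρ₂ ^ 2 ≠ 0 := by
    intro h0
    apply hne
    have h1 : (ρ - ρ₂) * (ρ + ρ₂) = 0 := by linarith [sq_nonneg ρ, h0, (by ring : (ρ - ρ₂) * (ρ + ρ₂) = ρ ^ 2 - ρ₂ ^ 2)]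
    rcases mul_eq_zero.1 h1 with h | h
    · linarith
    · linarith
  have hdR : (2 * d : ℝ) ≠ 0 := by
    have : (d : ℝ) ≠ 0 := by exact_mod_cast hd0
    positivity
  have hc0 : c ≠ 0 := by
    intro h0
    have e2 := hc1 b₁ hb₁
    rw [← hcdef, h0] at e2
    have e3 : (2 * d : ℝ) ^ 2 * (ρ ^ 2 - ρ₂ ^ 2) ≠ 0 := mul_ne_zero (pow_ne_zero 2 hdR) hρρ
    apply e3
    rw [← e2]
    simp
  -- bounds
  have hjb : ∀ b ∈ B, (0 : ℝ) ≤ j b ∧ (j b : ℝ) ≤ 2 * m := by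
    intro b hb
    refine ⟨by exact_mod_cast hc.nonneg b hb, by exact_mod_cast hc.le b hb⟩
  have hp0' : (0 : ℝ) ≤ p := by exact_mod_cast hp0
  have hp1' : (p : ℝ) ≤ 4 * m := by exact_mod_cast hp1
  have hd2 : |(2 * d : ℝ)| ≤ 4 * m := by
    have e1 := hjb b₁ (hJB _ hb₁)
    have e2 := hjb b₂ (hJB _ hb₂)
    rw [hd]
    push_cast
    rw [abs_le]
    constructor <;> linarith
  have hm0 : (0 : ℝ) ≤ m := Nat.cast_nonneg m
  have hx1 : |(2 * d * j b₁ - K : ℝ)| ≤ 16 * m ^ 2 := by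
    have e1 : g * ((2 * d : ℝ) * j b₁ - K) = 2 * d * (j b₁ * g - (o₂ - a)) := by
      rw [mul_sub, mul_sub, hK1]
      ring
    have e2 : |(j b₁ : ℝ) * g - (o₂ - a)| ≤ 4 * m * g := by
      have e3 : (j b₁ : ℝ) * g - (o₂ - a) = (j b₁ - p / 2) * g - (o₂ - o) := by linarith
      rw [e3]
      have e4 : |((j b₁ : ℝ) - p / 2) * g| ≤ 2 * m * g := by
        rw [abs_mul, abs_of_pos hg]
        apply mul_le_mul_of_nonneg_right _ hg.le
        have := hjb b₁ (hJB _ hb₁)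
        rw [abs_le]
        constructor <;> linarith
      calc |((j b₁ : ℝ) - p / 2) * g - (o₂ - o)| ≤ |((j b₁ : ℝ) - p / 2) * g| + |o₂ - o| := abs_sub _ _
        _ ≤ 2 * m * g + 2 * m * g := add_le_add e4 ho
        _ = 4 * m * g := by ring
    have e5 : g * |(2 * d * j b₁ - K : ℝ)| ≤ g * (16 * m ^ 2) := by
      calc g * |(2 * d * j b₁ - K : ℝ)| = |g * ((2 * d : ℝ) * j b₁ - K)| := by
            rw [abs_mul, abs_of_pos hg]
        _ = |(2 * d : ℝ)| * |(j b₁ : ℝ) * g - (o₂ - a)| := by rw [e1, abs_mul]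
        _ ≤ (4 * m) * (4 * m * g) := mul_le_mul hd2 e2 (abs_nonneg _) (by positivity)
        _ = g * (16 * m ^ 2) := by ring
    exact le_of_mul_le_mul_left e5 hg
  have hx2 : |(2 * d * j (s b₁) - d * p : ℝ)| ≤ 16 * m ^ 2 := by
    have e1 : (2 * d * j (s b₁) - d * p : ℝ) = (2 * d) * (j (s b₁) - p / 2) := by ring
    rw [e1, abs_mul]
    have e2 : |(j (s b₁) : ℝ) - p / 2| ≤ 4 * m := by
      have := hjb (s b₁) (hs b₁ hb₁).1
      rw [abs_le]
      constructor <;> linarith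
    calc |(2 * d : ℝ)| * |(j (s b₁) : ℝ) - p / 2| ≤ (4 * m) * (4 * m) :=
          mul_le_mul hd2 e2 (abs_nonneg _) (by positivity)
      _ = 16 * m ^ 2 := by ring
  have hcabs : c.natAbs ≤ 1024 * m ^ 4 := by
    have e1 : (2 * d * j b₁ - K : ℝ) ^ 2 ≤ (16 * m ^ 2) ^ 2 := by
      rw [← sq_abs]
      exact pow_le_pow_left₀ (abs_nonneg _) hx1 2
    have e2 : (2 * d * j (s b₁) - d * p : ℝ) ^ 2 ≤ (16 * m ^ 2) ^ 2 := by
      rw [← sq_abs]
      exact pow_le_pow_left₀ (abs_nonneg _) hx2 2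
    have e3 : |(c : ℝ)| ≤ 1024 * m ^ 4 := by
      rw [hcdef]
      push_cast
      have e4 := sq_nonneg (2 * d * j b₁ - K : ℝ)
      have e5 := sq_nonneg (2 * d * j (s b₁) - d * p : ℝ)
      have e6 : ((16 : ℝ) * m ^ 2) ^ 2 ≤ 1024 * m ^ 4 := by nlinarith [pow_nonneg hm0 4]
      rw [abs_le]
      constructor <;> linarith
    have e7 : ((c.natAbs : ℕ) : ℝ) ≤ ((1024 * m ^ 4 : ℕ) : ℝ) := by
      rw [Nat.cast_natAbs]
      push_cast
      exact e3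
    exact_mod_cast e7
  have hdiv := hT.le c.natAbs (Int.natAbs_pos.2 hc0) hcabs
  -- the set of the coordinates
  have hinj : Set.InjOn j (J : Set ℝ) := by
    intro x hx y hy hxy
    rw [hc.eq x (hJB x hx), hc.eq y (hJB y hy), hxy]
  have hcard : (J.image j).card = J.card := Finset.card_image_of_injOn hinj
  have hback : ∀ b ∈ J, a + ((j b : ℤ) : ℝ) * g = b := fun b hb => (hc.eq b (hJB b hb)).symm
  have hfin := card_sq_sub_le hc0 (J.image j) (fun i => 2 * d * i - K)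
    (fun i => 2 * d * j (s (a + (i : ℝ) * g)) - d * p) (by
      intro i _ i' _ h
      have h1 : 2 * d * i = 2 * d * i' := by
        have h2 : 2 * d * i - K = 2 * d * i' - K := h
        linarith
      exact mul_left_cancel₀ (by omega : 2 * d ≠ 0) h1) (by
      intro i hi
      obtain ⟨b, hb, rfl⟩ := Finset.mem_image.1 hi
      show (2 * d * j b - K) ^ 2 - (2 * d * j (s (a + ((j b : ℤ) : ℝ) * g)) - d * p) ^ 2 = c
      rw [hback b hb]
      exact hc2 b hb)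
  rw [hcard] at hfin
  omega

end Pool.Agent.LargeDist.Exact
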