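import Pool.Agent.LargeDist.Exact.Defs

/-!
# Counting the distances

PROOF of `count_two`. Let `U = uu o ρ (B)`, `J' = {b ∈ B' : uu o₂ ρ₂ b ∉ U}`, `V = uu o₂ ρ₂ (J')`.
The sets `rd B`, `U \ rd B`, `V \ rd B` are pairwise disjoint subsets of `Δ` (`V` is disjoint
from `U`). `card (rd B) ≥ card B - 1` (`card_le_rd`, `LineBound.lean`),
`card (U ∩ rd B) ≤ card {b ∈ B : uu o ρ b ∈ rd B} ≤ T` and
`card (V ∩ rd B) ≤ card {b ∈ B : uu o₂ ρ₂ b ∈ rd B} ≤ T`.
-/

set_option autoImplicit false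

namespace Pool.Agent.LargeDist.Exact

open Finset

open scoped Classical in
theorem count_two {B B' Δ : Finset ℝ} {o ρ o₂ ρ₂ : ℝ} {T : ℕ} (h1 : rd B ⊆ Δ)
    (h2 : ∀ b ∈ B, uu o ρ b ∈ Δ) (hB : B' ⊆ B) (h3 : ∀ b ∈ B', uu o₂ ρ₂ b ∈ Δ)
    (hC : (B.filter fun b => uu o ρ b ∈ rd B).card ≤ T)
    (hC₂ : (B.filter fun b => uu o₂ ρ₂ b ∈ rd B).card ≤ T) :
    B.card + (B.image (uu o ρ)).card +
      ((B'.filter fun b => uu o₂ ρ₂ b ∉ B.image (uu o ρ)).image (uu o₂ ρ₂)).card ≤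
        Δ.card + 1 + 2 * T := by
  have hR := card_le_rd B
  set R := rd B with hRdef
  set U := B.image (uu o ρ) with hU
  set V := (B'.filter fun b => uu o₂ ρ₂ b ∉ U).image (uu o₂ ρ₂) with hV
  have hUR : (U ∩ R).card ≤ T := by
    refine le_trans (le_trans (card_le_card ?_) (card_image_le (f := uu o ρ))) hC
    intro x hx
    rw [mem_inter, hU, mem_image] at hx
    obtain ⟨⟨b, hb, rfl⟩, hx⟩ := hx
    exact mem_image_of_mem _ (mem_filter.2 ⟨hb, hx⟩)
  have hVR : (V ∩ R).card ≤ T := by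
    refine le_trans (le_trans (card_le_card ?_) (card_image_le (f := uu o₂ ρ₂))) hC₂
    intro x hx
    rw [mem_inter, hV, mem_image] at hx
    obtain ⟨⟨b, hb, rfl⟩, hx⟩ := hx
    exact mem_image_of_mem _ (mem_filter.2 ⟨hB (mem_filter.1 hb).1, hx⟩)
  have hUc := card_sdiff_add_card_inter U R
  have hVc := card_sdiff_add_card_inter V R
  have hd1 : Disjoint R (U \ R) := disjoint_sdiff
  have hUV : Disjoint U V := by
    rw [disjoint_left]
    intro x hx hx'
    rw [hV, mem_image] at hx'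
    obtain ⟨b, hb, rfl⟩ := hx'
    exact (mem_filter.1 hb).2 hx
  have hd2 : Disjoint (R ∪ (U \ R)) (V \ R) := by
    rw [disjoint_union_left]
    exact ⟨disjoint_sdiff, disjoint_of_subset_left sdiff_subset
      (disjoint_of_subset_right sdiff_subset hUV)⟩
  have hsub : R ∪ (U \ R) ∪ (V \ R) ⊆ Δ := by
    intro x hx
    rw [mem_union, mem_union, mem_sdiff, mem_sdiff] at hx
    rcases hx with (hx | ⟨hx, _⟩) | ⟨hx, _⟩
    · exact h1 hx
    · rw [hU, mem_image] at hx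
      obtain ⟨b, hb, rfl⟩ := hx
      exact h2 b hb
    · rw [hV, mem_image] at hx
      obtain ⟨b, hb, rfl⟩ := hx
      exact h3 b (mem_filter.1 hb).1
  have hc := card_le_card hsub
  rw [card_union_of_disjoint hd2, card_union_of_disjoint hd1] at hc
  omega

end Pool.Agent.LargeDist.Exact
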