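import Pool.Agent.LargeDist.Exact.Defs

/-!
# Coordinates adapted to a line and a point off the line

PROOF of `exists_frame`. Let `a₀ ∈ X`, `K = vectorSpan ℝ X`, `finrank K ≤ 1`, and `y - a₀ ∉ K` (as in
the proof of `exists_coord`, `Dim3.lean`). There is a unit vector `e` with `K ≤ ℝ e` and
`y - a₀ ∉ ℝ e`: if `K ≠ ⊥` a unit vector of `K` (then `K = ℝ e`); if `K = ⊥` a unit vector orthogonal
to `y - a₀ ≠ 0`. Let `v = (y - a₀) - ⟪e, y - a₀⟫ e ≠ 0`, `e₁ = v / ‖v‖`; `e, e₁` are orthonormal and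
extend to an orthonormal basis `b` of `ℝ³` with `b 0 = e`, `b 1 = e₁`
(`Orthonormal.exists_orthonormalBasis_extension_of_card_eq`, `ι = Fin 3`). Put
`t x = ⟪b 0, x - a₀⟫`, `α x = ⟪b 1, x - a₀⟫`, `β x = ⟪b 2, x - a₀⟫`. `dist_sq`: `b.repr` is an isometry
(`EuclideanSpace.norm_eq`, `Fin.sum_univ_three`). `surj`: `x = a₀ + u b 0 + v b 1 + w b 2`. For
`x ∈ X`: `x - a₀ ∈ K ≤ ℝ (b 0)`. `α y = ‖v‖ > 0` and `β y = 0` as `y - a₀ = ⟪e, y - a₀⟫ e + ‖v‖ e₁`.
-/

set_option autoImplicit false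

namespace Pool.Agent.LargeDist.Exact

open Finset Module

/-- a unit vector whose line contains `K` and does not contain `w` -/
private theorem unit_FrameEx {K : Submodule ℝ E3} (hK : finrank ℝ K ≤ 1) {w : E3} (hw : w ∉ K) :
    ∃ e : E3, ‖e‖ = 1 ∧ (∀ x ∈ K, ∃ c : ℝ, x = c • e) ∧ ∀ c : ℝ, w ≠ c • e := by
  have hw0 : w ≠ 0 := by
    rintro rfl
    exact hw K.zero_mem
  by_cases hbot : K = ⊥
  · have h1 : finrank ℝ (Submodule.span ℝ {w})ᗮ = 2 := by
      have h := Submodule.finrank_add_finrank_orthogonal (Submodule.span ℝ {w})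
      rw [finrank_span_singleton hw0, finrank_euclideanSpace_fin] at h
      omega
    have h2 : (Submodule.span ℝ {w})ᗮ ≠ ⊥ := by
      intro h3
      rw [h3, finrank_bot] at h1
      omega
    obtain ⟨u, hu, hu0⟩ := Submodule.exists_mem_ne_zero_of_ne_bot h2
    have hn : ‖u‖ ≠ 0 := norm_ne_zero_iff.2 hu0
    have hwu : inner ℝ w u = 0 :=
      Submodule.inner_right_of_mem_orthogonal (Submodule.mem_span_singleton_self w) hu
    refine ⟨‖u‖⁻¹ • u, ?_, ?_, ?_⟩
    · rw [norm_smul, norm_inv, norm_norm, inv_mul_cancel₀ hn]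
    · intro x hx
      rw [hbot, Submodule.mem_bot] at hx
      exact ⟨0, by rw [hx, zero_smul]⟩
    · intro c hc
      have h3 : inner ℝ w w = 0 := by
        nth_rewrite 2 [hc]
        rw [inner_smul_right, inner_smul_right, hwu, mul_zero, mul_zero]
      exact hw0 (inner_self_eq_zero.1 h3)
  · obtain ⟨u, hu, hu0⟩ := Submodule.exists_mem_ne_zero_of_ne_bot hbot
    have hn : ‖u‖ ≠ 0 := norm_ne_zero_iff.2 hu0
    have hne : (⟨u, hu⟩ : K) ≠ 0 := fun h => hu0 (congrArg Subtype.val h)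
    have h1 : finrank ℝ K = 1 := by
      refine le_antisymm hK ?_
      have : Nontrivial K := ⟨⟨⟨u, hu⟩, 0, hne⟩⟩
      exact Nat.succ_le_of_lt finrank_pos
    refine ⟨‖u‖⁻¹ • u, ?_, ?_, ?_⟩
    · rw [norm_smul, norm_inv, norm_norm, inv_mul_cancel₀ hn]
    · intro x hx
      obtain ⟨c, hc⟩ := exists_smul_eq_of_finrank_eq_one h1 hne ⟨x, hx⟩
      refine ⟨c * ‖u‖, ?_⟩
      have h2 : c • u = x := congrArg Subtype.val hc
      rw [smul_smul, mul_assoc, mul_inv_cancel₀ hn, mul_one, h2]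
    · intro c hc
      apply hw
      rw [hc]
      exact K.smul_mem _ (K.smul_mem _ hu)

theorem exists_frame {X : Finset E3} (hX : X.Nonempty)
    (hrank : finrank ℝ (vectorSpan ℝ (X : Set E3)) + 2 ≤ 3) {y : E3}
    (hy : y ∉ affineSpan ℝ (X : Set E3)) :
    ∃ t α β : E3 → ℝ, Frame t α β ∧ (∀ x ∈ X, α x = 0 ∧ β x = 0) ∧ β y = 0 ∧ 0 < α y := by
  classical
  obtain ⟨a₀, ha₀⟩ := hX
  set K := vectorSpan ℝ (X : Set E3) with hK
  have hyK : y - a₀ ∉ K := by
    intro h1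
    apply hy
    have h2 : y = (y - a₀) +ᵥ a₀ := by simp
    rw [h2]
    exact vadd_mem_affineSpan_of_mem_affineSpan_of_mem_vectorSpan
      (subset_affineSpan ℝ _ ha₀) h1
  obtain ⟨e, he, heK, hew⟩ := unit_FrameEx (K := K) (by omega) hyK
  set w : E3 := y - a₀ with hw
  set v : E3 := w - inner ℝ e w • e with hv
  have hv0 : v ≠ 0 := by
    intro h0
    exact hew _ (sub_eq_zero.1 h0)
  have hvn : ‖v‖ ≠ 0 := norm_ne_zero_iff.2 hv0
  have hee : inner ℝ e e = 1 := by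
    rw [real_inner_self_eq_norm_sq, he, one_pow]
  have hev : inner ℝ e v = 0 := by
    rw [hv, inner_sub_right, inner_smul_right, hee, mul_one, sub_self]
  have horth : Orthonormal ℝ (({0, 1} : Set (Fin 3)).domRestrict ![e, ‖v‖⁻¹ • v, 0]) := by
    have hn1 : ‖‖v‖⁻¹ • v‖ = 1 := by
      rw [norm_smul, norm_inv, norm_norm, inv_mul_cancel₀ hvn]
    constructor
    · rintro ⟨i, hi⟩
      rcases hi with rfl | rfl
      · exact he
      · exact hn1
    · rintro ⟨i, hi⟩ ⟨j, hj⟩ hij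
      rcases hi with rfl | rfl <;> rcases hj with rfl | rfl
      · exact absurd rfl hij
      · show inner ℝ e (‖v‖⁻¹ • v) = 0
        rw [inner_smul_right, hev, mul_zero]
      · show inner ℝ (‖v‖⁻¹ • v) e = 0
        rw [real_inner_comm, inner_smul_right, hev, mul_zero]
      · exact absurd rfl hij
  obtain ⟨b, hb⟩ := Orthonormal.exists_orthonormalBasis_extension_of_card_eq (ι := Fin 3)
    (by simp) horth
  have hb0 : b 0 = e := hb 0 (by simp)
  have hb1 : b 1 = ‖v‖⁻¹ • v := hb 1 (by simp)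
  have hbb : ∀ i j, inner ℝ (b i) (b j) = if i = j then (1 : ℝ) else 0 := fun i j =>
    orthonormal_iff_ite.1 b.orthonormal i j
  have hwb : w = inner ℝ e w • b 0 + ‖v‖ • b 1 := by
    rw [hb0, hb1, smul_smul, mul_inv_cancel₀ hvn, one_smul, hv]
    abel
  refine ⟨fun x => inner ℝ (b 0) (x - a₀), fun x => inner ℝ (b 1) (x - a₀),
    fun x => inner ℝ (b 2) (x - a₀), ⟨?_, ?_⟩, ?_, ?_, ?_⟩
  · intro x z
    have h1 : ∀ i, inner ℝ (b i) (x - a₀) - inner ℝ (b i) (z - a₀) = inner ℝ (b i) (x - z) := by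
      intro i
      rw [← inner_sub_right]
      congr 1
      abel
    show dist x z ^ 2 = (inner ℝ (b 0) (x - a₀) - inner ℝ (b 0) (z - a₀)) ^ 2 +
      (inner ℝ (b 1) (x - a₀) - inner ℝ (b 1) (z - a₀)) ^ 2 +
      (inner ℝ (b 2) (x - a₀) - inner ℝ (b 2) (z - a₀)) ^ 2
    rw [h1, h1, h1, dist_eq_norm, ← b.sum_sq_inner_right (x - z), Fin.sum_univ_three]
  · intro p q r
    refine ⟨a₀ + b.repr.symm (WithLp.toLp 2 ![p, q, r]), ?_⟩
    have h1 : ∀ i, inner ℝ (b i) (a₀ + b.repr.symm (WithLp.toLp 2 ![p, q, r]) - a₀) =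
        (![p, q, r] : Fin 3 → ℝ) i := by
      intro i
      rw [add_sub_cancel_left, ← b.repr_apply_apply, LinearIsometryEquiv.apply_symm_apply]
    exact ⟨h1 0, h1 1, h1 2⟩
  · intro x hx
    have hxK : x - a₀ ∈ K := vsub_mem_vectorSpan ℝ hx ha₀
    obtain ⟨c, hc⟩ := heK _ hxK
    constructor
    · show inner ℝ (b 1) (x - a₀) = 0
      rw [hc, ← hb0, inner_smul_right, hbb, if_neg (by decide), mul_zero]
    · show inner ℝ (b 2) (x - a₀) = 0
      rw [hc, ← hb0, inner_smul_right, hbb, if_neg (by decide), mul_zero]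
  · show inner ℝ (b 2) w = 0
    rw [hwb, inner_add_right, inner_smul_right, inner_smul_right, hbb, hbb, if_neg (by decide),
      if_neg (by decide), mul_zero, mul_zero, add_zero]
  · show 0 < inner ℝ (b 1) w
    rw [hwb, inner_add_right, inner_smul_right, inner_smul_right, hbb, hbb, if_neg (by decide),
      if_pos rfl, mul_zero, mul_one, zero_add]
    exact norm_pos_iff.2 hv0

end Pool.Agent.LargeDist.Exact
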