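import Pool.Agent.LargeDist.Exact.Defs

/-!
# The sets of the lower bound

PROOF of `circle_pts`. Choose `g φ` with coordinates `(o, ρ cos φ, ρ sin φ)` (`hF.surj`), use
`hF.dist_sq` and `cos (φ - ψ) = cos φ cos ψ + sin φ sin ψ`.
PROOF of `exists_set`. Let `ρ = α y`, `g` as in `circle_pts` with `o = t y`. For `x ∈ A`:
`dist x (g φ) = dist x y` (`dist x y ^ 2 = (t x - o) ^ 2 + ρ ^ 2`). Let
`ψ = arcsin (r / (2 ρ)) ∈ (0, π / 2]` (`0 < r` by `dists_pos`), `q₁ = g ψ`, `q₂ = g (-ψ)`: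
`dist q₁ q₂ ^ 2 = ρ ^ 2 (2 - 2 cos (2 ψ)) = 4 ρ ^ 2 sin ψ ^ 2 = r ^ 2`. Let `N = max n (k + 1)`,
`η > 0` with `N η < ψ`, `N η ≤ 1`, and `Cl = {g (i η) : i < N}`. For angles `|φ - φ'| < 2 ψ ≤ π`:
`dist (g φ) (g φ') < r` (`cos` is strictly decreasing on `[0, π]`); this holds for two points of `Cl`,
and for a point of `Cl` and `q₁` or `q₂` (`|i η ∓ ψ| ≤ ψ + N η < 2 ψ`).
`S = A ∪ {q₁, q₂} ∪ Cl`, `Q = A ∪ {q₁, q₂}`. `g` is injective on `[- π / 2, π / 2]`-angles (the
distance is not zero), `Cl` has `N` points, and the distances `dist (g 0) (g (i η))`,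
`0 < i < N`, are different, so `S` has at least `k` distances (see `exists_large`, `Lower.lean`).
`q₁, q₂ ∉ A` (`dist x q₁ = dist x y`; for `x ∈ A` the point `x` has `α x = β x = 0`, and
`dist x q₁ ≥ ρ > 0`). Every distance of `S` which is at least `r` is in `dists (insert y A)`: two
points of `A`; `x ∈ A` and a point of the circle (`dist x y`); `dist q₁ q₂ = r`; the others are less
than `r`. `r = dist q₁ q₂ ∈ dists S`. So `kthDist S k ≤ r` (`kthDist_le`), and all distances of `Q`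
are at least `r` (`hmin`).
-/

set_option autoImplicit false

namespace Pool.Agent.LargeDist.Exact

open Finset

theorem circle_pts {t α β : E3 → ℝ} (hF : Frame t α β) (o : ℝ) {ρ : ℝ} (hρ : 0 < ρ) :
    ∃ g : ℝ → E3, (∀ φ x, α x = 0 → β x = 0 → dist x (g φ) ^ 2 = (t x - o) ^ 2 + ρ ^ 2) ∧
      ∀ φ ψ, dist (g φ) (g ψ) ^ 2 = ρ ^ 2 * (2 - 2 * Real.cos (φ - ψ)) := by
  choose g hg1 hg2 hg3 using fun φ : ℝ => hF.surj o (ρ * Real.cos φ) (ρ * Real.sin φ)
  refine ⟨g, fun φ x hx1 hx2 => ?_, fun φ ψ => ?_⟩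
  · rw [hF.dist_sq, hg1, hg2, hg3, hx1, hx2]
    have h1 := Real.cos_sq_add_sin_sq φ
    nlinarith [h1]
  · rw [hF.dist_sq, hg1, hg1, hg2, hg2, hg3, hg3, Real.cos_sub]
    have h1 := Real.cos_sq_add_sin_sq φ
    have h2 := Real.cos_sq_add_sin_sq ψ
    have h3 : (o - o) ^ 2 + (ρ * Real.cos φ - ρ * Real.cos ψ) ^ 2 +
        (ρ * Real.sin φ - ρ * Real.sin ψ) ^ 2 =
        ρ ^ 2 * ((Real.cos φ ^ 2 + Real.sin φ ^ 2) + (Real.cos ψ ^ 2 + Real.sin ψ ^ 2) -
          2 * (Real.cos φ * Real.cos ψ + Real.sin φ * Real.sin ψ)) := by ring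
    rw [h3, h1, h2]
    ring

open scoped Classical in
theorem exists_set {k : ℕ} (hk : 1 ≤ k) {t α β : E3 → ℝ} (hF : Frame t α β) {A : Finset E3}
    (hA0 : ∀ x ∈ A, α x = 0 ∧ β x = 0) {y : E3} (hβ : β y = 0) (hα : 0 < α y)
    (hcard : (dists (insert y A)).card ≤ k) {r : ℝ} (hr : r ∈ dists (insert y A))
    (hmin : ∀ s ∈ dists (insert y A), r ≤ s) (hρ : r ≤ 2 * α y) (n : ℕ) :
    ∃ S Q : Finset E3, n ≤ S.card ∧ k ≤ (dists S).card ∧ Q ⊆ S ∧ Q.card = A.card + 2 ∧
      ∀ x ∈ Q, ∀ z ∈ Q, x ≠ z → kthDist S k ≤ dist x z := by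
  obtain ⟨g, hg, hgg⟩ := circle_pts hF (t y) hα
  have hr0 : 0 < r := dists_pos hr
  have hgA : ∀ φ, ∀ x ∈ A, dist x (g φ) = dist x y := by
    intro φ x hx
    have h1 := hg φ x (hA0 x hx).1 (hA0 x hx).2
    have h2 := hF.dist_sq x y
    rw [(hA0 x hx).1, (hA0 x hx).2, hβ] at h2
    have h3 : dist x (g φ) ^ 2 = dist x y ^ 2 := by
      rw [h1, h2]
      ring
    exact (pow_left_inj₀ dist_nonneg dist_nonneg (by norm_num)).1 h3
  have hgn : ∀ φ, g φ ∉ A := by
    intro φ hx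
    have h1 := hg φ _ (hA0 _ hx).1 (hA0 _ hx).2
    rw [dist_self] at h1
    have h2 : 0 < α y ^ 2 := by positivity
    nlinarith [sq_nonneg (t (g φ) - t y)]
  have hyA : ∀ x ∈ A, x ≠ y := by
    rintro x hx rfl
    rw [(hA0 x hx).1] at hα
    exact lt_irrefl _ hα
  set ψ : ℝ := Real.arcsin (r / (2 * α y)) with hψ
  have hu0 : 0 < r / (2 * α y) := by positivity
  have hu1 : r / (2 * α y) ≤ 1 := by
    rw [div_le_one (by positivity)]
    exact hρ
  have hψ0 : 0 < ψ := Real.arcsin_pos.2 hu0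
  have hψ1 : ψ ≤ Real.pi / 2 := Real.arcsin_le_pi_div_two _
  have hsin : Real.sin ψ = r / (2 * α y) := Real.sin_arcsin (by linarith) hu1
  have hr2 : α y ^ 2 * (2 - 2 * Real.cos (2 * ψ)) = r ^ 2 := by
    rw [Real.cos_two_mul]
    have h1 := Real.cos_sq_add_sin_sq ψ
    have h2 : 2 - 2 * (2 * Real.cos ψ ^ 2 - 1) = 4 * Real.sin ψ ^ 2 := by linarith
    rw [h2, hsin]
    field_simp
    ring
  -- the distances between points of the circle
  have hle : ∀ φ φ', |φ| ≤ ψ → |φ'| ≤ ψ → dist (g φ) (g φ') ≤ r := by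
    intro φ φ' h1 h2
    have h3 : |φ - φ'| ≤ 2 * ψ := (abs_sub _ _).trans (by linarith)
    have h4 : Real.cos (2 * ψ) ≤ Real.cos |φ - φ'| :=
      Real.strictAntiOn_cos.antitoneOn ⟨abs_nonneg _, by linarith⟩ ⟨by linarith, by linarith⟩ h3
    rw [Real.cos_abs] at h4
    have h5 : dist (g φ) (g φ') ^ 2 ≤ r ^ 2 := by
      rw [hgg, ← hr2]
      have h6 : 0 ≤ α y ^ 2 := by positivity
      exact mul_le_mul_of_nonneg_left (by linarith) h6
    exact (pow_le_pow_iff_left₀ dist_nonneg hr0.le (by norm_num)).1 h5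
  have hqq : dist (g ψ) (g (-ψ)) = r := by
    have h1 : dist (g ψ) (g (-ψ)) ^ 2 = r ^ 2 := by
      rw [hgg, ← hr2]
      congr 3
      congr 1
      ring
    exact (pow_left_inj₀ dist_nonneg hr0.le (by norm_num)).1 h1
  set N : ℕ := max n (k + 1) with hN
  have hN1 : 1 ≤ N := le_trans (by omega) (le_max_right n (k + 1))
  have hNpos : (0 : ℝ) < N := by exact_mod_cast hN1
  -- the step
  obtain ⟨η, hη, hη1, hη2⟩ : ∃ η : ℝ, 0 < η ∧ N * η ≤ 1 ∧ N * η ≤ ψ := by
    refine ⟨min (1 / (N : ℝ)) (ψ / N), by positivity, ?_, ?_⟩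
    · calc (N : ℝ) * min (1 / (N : ℝ)) (ψ / N) ≤ N * (1 / N) :=
            mul_le_mul_of_nonneg_left (min_le_left _ _) hNpos.le
        _ = 1 := by field_simp
    · calc (N : ℝ) * min (1 / (N : ℝ)) (ψ / N) ≤ N * (ψ / N) :=
            mul_le_mul_of_nonneg_left (min_le_right _ _) hNpos.le
        _ = ψ := by field_simp
  set C : Finset E3 := (Finset.range N).image (fun j : ℕ => g (j * η)) with hC
  have hang : ∀ j ∈ Finset.range N, |(j : ℝ) * η| ≤ ψ := by
    intro j hj
    rw [Finset.mem_range] at hj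
    rw [abs_of_nonneg (by positivity)]
    have h7 : (j : ℝ) * η ≤ N * η := by
      apply mul_le_mul_of_nonneg_right _ hη.le
      exact_mod_cast hj.le
    linarith
  have hinj : ∀ i ∈ Finset.range N, ∀ j ∈ Finset.range N,
      dist (g 0) (g (i * η)) = dist (g 0) (g (j * η)) → i = j := by
    intro i hi j hj hij
    have h1 := hgg 0 (i * η)
    have h2 := hgg 0 (j * η)
    rw [hij] at h1
    have h3 : Real.cos (0 - i * η) = Real.cos (0 - j * η) := by
      have h4 := h1.symm.trans h2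
      have h5 : α y ^ 2 ≠ 0 := by positivity
      have h6 := mul_left_cancel₀ h5 h4
      linarith
    rw [zero_sub, zero_sub, Real.cos_neg, Real.cos_neg] at h3
    have hle : ∀ m ∈ Finset.range N, (m * η : ℝ) ∈ Set.Icc 0 Real.pi := by
      intro m hm
      rw [Finset.mem_range] at hm
      refine ⟨by positivity, ?_⟩
      have h7 : (m : ℝ) * η ≤ N * η := by
        apply mul_le_mul_of_nonneg_right _ hη.le
        exact_mod_cast hm.le
      linarith [Real.pi_gt_three]
    have h8 := Real.injOn_cos (hle i hi) (hle j hj) h3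
    have h9 := mul_right_cancel₀ hη.ne' h8
    exact_mod_cast h9
  have hCcard : C.card = N := by
    rw [hC, Finset.card_image_of_injOn, Finset.card_range]
    intro i hi j hj hij
    exact hinj i hi j hj (by simp only at hij; rw [hij])
  set S : Finset E3 := (A ∪ {g ψ, g (-ψ)}) ∪ C with hS
  have hkd : k ≤ (dists S).card := by
    have h1 : ((Finset.range N).erase 0).image (fun j : ℕ => dist (g 0) (g (j * η))) ⊆
        dists S := by
      intro t ht
      obtain ⟨j, hj, rfl⟩ := Finset.mem_image.1 ht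
      rw [Finset.mem_erase] at hj
      have h0 : g 0 ∈ C := by
        rw [hC, Finset.mem_image]
        exact ⟨0, Finset.mem_range.2 (by omega), by simp⟩
      have hjC : g (j * η) ∈ C := by
        rw [hC, Finset.mem_image]
        exact ⟨j, hj.2, rfl⟩
      refine mem_dists.2 ⟨g 0, Finset.mem_union_right _ h0, g (j * η),
        Finset.mem_union_right _ hjC, ?_, rfl⟩
      intro heq
      apply hj.1
      refine hinj j hj.2 0 (Finset.mem_range.2 (by omega)) ?_
      simp only [Nat.cast_zero, zero_mul]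
      rw [← heq]
    have h2 := Finset.card_le_card h1
    rw [Finset.card_image_of_injOn, Finset.card_erase_of_mem (Finset.mem_range.2 (by omega)),
      Finset.card_range] at h2
    · have : k + 1 ≤ N := le_max_right _ _
      omega
    · intro i hi j hj hij
      have hi' := Finset.mem_of_mem_erase (Finset.mem_coe.1 hi)
      have hj' := Finset.mem_of_mem_erase (Finset.mem_coe.1 hj)
      exact hinj i hi' j hj' hij
  have hQS : A ∪ {g ψ, g (-ψ)} ⊆ S := Finset.subset_union_left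
  have hq1 : g ψ ∈ A ∪ {g ψ, g (-ψ)} := by simp
  have hq2 : g (-ψ) ∈ A ∪ {g ψ, g (-ψ)} := by simp
  have hqne : g ψ ≠ g (-ψ) := by
    intro h
    rw [h, dist_self] at hqq
    exact hr0.ne hqq
  -- the points of `S`
  have hSm : ∀ x ∈ S, x ∈ A ∨ ∃ φ, |φ| ≤ ψ ∧ x = g φ := by
    intro x hx
    rw [hS, Finset.mem_union, Finset.mem_union, Finset.mem_insert, Finset.mem_singleton] at hx
    rcases hx with (hx | rfl | rfl) | hx
    · exact Or.inl hx
    · exact Or.inr ⟨ψ, (abs_of_pos hψ0).le, rfl⟩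
    · exact Or.inr ⟨-ψ, by rw [abs_neg, abs_of_pos hψ0], rfl⟩
    · rw [hC, Finset.mem_image] at hx
      obtain ⟨j, hj, rfl⟩ := hx
      exact Or.inr ⟨_, hang j hj, rfl⟩
  have hmix : ∀ a ∈ A, ∀ φ, dist a (g φ) ∈ dists (insert y A) := by
    intro a ha φ
    rw [hgA φ a ha]
    exact mem_dists.2 ⟨a, Finset.mem_insert_of_mem ha, y, Finset.mem_insert_self _ _,
      hyA a ha, rfl⟩
  have hAA : ∀ a ∈ A, ∀ b ∈ A, a ≠ b → dist a b ∈ dists (insert y A) := fun a ha b hb hab =>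
    mem_dists.2 ⟨a, Finset.mem_insert_of_mem ha, b, Finset.mem_insert_of_mem hb, hab, rfl⟩
  have hkr : kthDist S k ≤ r := by
    apply kthDist_le hk hkd (mem_dists.2 ⟨_, hQS hq1, _, hQS hq2, hqne, hqq⟩)
    refine le_trans (Finset.card_le_card ?_) hcard
    intro t ht
    rw [Finset.mem_filter] at ht
    obtain ⟨ht, hrt⟩ := ht
    obtain ⟨x, hx, z, hz, hxz, rfl⟩ := mem_dists.1 ht
    rcases hSm x hx with hx | ⟨φ, hφ, rfl⟩ <;> rcases hSm z hz with hz | ⟨φ', hφ', rfl⟩
    · exact hAA x hx z hz hxz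
    · exact hmix x hx φ'
    · rw [dist_comm]
      exact hmix z hz φ
    · rw [le_antisymm (hle φ φ' hφ hφ') hrt]
      exact hr
  refine ⟨S, A ∪ {g ψ, g (-ψ)}, ?_, hkd, hQS, ?_, ?_⟩
  · calc n ≤ N := le_max_left _ _
      _ = C.card := hCcard.symm
      _ ≤ S.card := Finset.card_le_card Finset.subset_union_right
  · rw [Finset.card_union_of_disjoint, Finset.card_pair hqne]
    rw [Finset.disjoint_left]
    intro x hx hx'
    rw [Finset.mem_insert, Finset.mem_singleton] at hx'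
    rcases hx' with rfl | rfl
    · exact hgn _ hx
    · exact hgn _ hx
  · intro x hx z hz hxz
    refine hkr.trans ?_
    rw [Finset.mem_union, Finset.mem_insert, Finset.mem_singleton] at hx hz
    rcases hx with hx | rfl | rfl <;> rcases hz with hz | rfl | rfl
    · exact hmin _ (hAA x hx z hz hxz)
    · exact hmin _ (hmix x hx _)
    · exact hmin _ (hmix x hx _)
    · rw [dist_comm]
      exact hmin _ (hmix z hz _)
    · exact absurd rfl hxz
    · exact hqq.ge
    · rw [dist_comm]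
      exact hmin _ (hmix z hz _)
    · rw [dist_comm]
      exact hqq.ge
    · exact absurd rfl hxz

end Pool.Agent.LargeDist.Exact
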