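import Pool.Agent.LargeDist.Exact.Near
import Pool.Agent.LargeDist.Exact.LowSet
import Pool.Agent.LargeDist.Exact.MBound
import Pool.Agent.LargeDist.Exact.DivBound

/-!
# The lower bound

PROOF of `le_f`. Let `A` be as in `exists_max 4000`, `A ≠ ∅`, `y` as in `IsConeSet`,
`Δ = dists (insert y A)`, `card Δ ≤ k`. For large `k` there is `T` with `DivB (card A) T`.
`cone_frame` with `X = B = A`. `Δ` is not empty; let `r` be its minimum, `0 < r`; all distances of `A`
are at least `r`, so `5 r ≤ α y`. `exists_set` gives for every `n` a set `S` with `n ≤ card S`,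
`k ≤ card (dists S)` and a clique `Q` of `card A + 2` vertices in `largeDistGraph S k`
(`SimpleGraph.IsClique.card_le_chromaticNumber` for the subtype finset, or a homomorphism from the
complete graph as in `F_le_f`, `Lower.lean`), so `M 3 k + 2 = card A + 2 ≤ f 3 k`.
-/

set_option autoImplicit false

namespace Pool.Agent.LargeDist.Exact

open Finset

theorem le_f : ∃ k₀ : ℕ, ∀ k : ℕ, k₀ ≤ k → M 3 k + 2 ≤ f 3 k := by
  classical
  obtain ⟨k₁, hk₁⟩ := exists_max 4000
  obtain ⟨m₀, hm₀⟩ := exists_divB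
  refine ⟨max k₁ (max 1 (2 * m₀)), fun k hk => ?_⟩
  have hk1 : k₁ ≤ k := (le_max_left _ _).trans hk
  have hk2 : 1 ≤ k := ((le_max_left _ _).trans (le_max_right _ _)).trans hk
  have hk3 : 2 * m₀ ≤ k := ((le_max_right _ _).trans (le_max_right _ _)).trans hk
  obtain ⟨A, ⟨hrank, y, hy, hcard⟩, hM, hW⟩ := hk₁ k hk1
  have hA : A.Nonempty := Finset.card_pos.1 (by omega)
  obtain ⟨T, hT⟩ := hm₀ A.card (by omega)
  have hyA : ∀ x ∈ A, x ≠ y := by
    rintro x hx rfl
    exact hy (subset_affineSpan ℝ _ hx)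
  have hAA : ∀ x ∈ A, ∀ z ∈ A, x ≠ z → dist x z ∈ dists (insert y A) := fun x hx z hz hxz =>
    mem_dists.2 ⟨x, Finset.mem_insert_of_mem hx, z, Finset.mem_insert_of_mem hz, hxz, rfl⟩
  have hAy : ∀ x ∈ A, dist x y ∈ dists (insert y A) := fun x hx =>
    mem_dists.2 ⟨x, Finset.mem_insert_of_mem hx, y, Finset.mem_insert_self _ _, hyA x hx, rfl⟩
  obtain ⟨t, α, β, a, g, j, p, N, hF, hA0, hβ, hα, -, -, -, -, -, -, -, hr⟩ :=
    cone_frame hA hrank hy (Finset.Subset.refl A) hAA hAy hcard hT hW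
  obtain ⟨a₀, ha₀⟩ := hA
  have hne : (dists (insert y A)).Nonempty := ⟨_, hAy a₀ ha₀⟩
  have hrm := Finset.min'_mem _ hne
  have hmin : ∀ s ∈ dists (insert y A), (dists (insert y A)).min' hne ≤ s := fun s hs =>
    Finset.min'_le _ _ hs
  have hr0 : 0 < (dists (insert y A)).min' hne := dists_pos hrm
  have h5 := (hr _ hr0 (fun x hx z hz hxz => hmin _ (hAA x hx z hz hxz))).2
  rw [hM]
  unfold f
  apply le_iInf
  intro n
  obtain ⟨S, Q, hn, hkd, hQS, hQc, hQ⟩ := exists_set hk2 hF hA0 hβ hα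
    (by convert hcard) (r := (dists (insert y A)).min' hne) (by convert hrm)
    (by
      intro s hs
      apply hmin
      convert hs)
    (by linarith) n
  have hom : (⊤ : SimpleGraph Q) →g largeDistGraph S k :=
    { toFun := fun x => ⟨x.1, hQS x.2⟩
      map_rel' := by
        intro x z hxz
        have hne' : (x : E3) ≠ z := fun h =>
          (SimpleGraph.top_adj _ _).1 hxz (Subtype.ext h)
        refine ⟨fun h => hne' (congrArg (fun u : S => u.1) h), ?_⟩
        exact hQ x.1 x.2 z.1 z.2 hne' }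
  have h6 : ((A.card : ℕ∞) + 2) = (⊤ : SimpleGraph Q).chromaticNumber := by
    rw [SimpleGraph.chromaticNumber_top, Fintype.card_coe, hQc]
    push_cast
    rfl
  rw [h6]
  exact (SimpleGraph.chromaticNumber_mono_of_hom hom).trans
    (le_iSup (fun S : {S : Finset (EuclideanSpace ℝ (Fin 3)) //
    n ≤ S.card ∧ k ≤ (dists S).card} => (largeDistGraph S.1 k).chromaticNumber) ⟨S, hn, hkd⟩)

end Pool.Agent.LargeDist.Exact
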