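import Pool.Agent.LargeDist.Exact.UpperEx
import Pool.Agent.LargeDist.Exact.LowerEx
import Pool.Agent.LargeDist.Exact.Arith

/-!
# `f 3 k = Mz k + 2` for large `k`
-/

set_option autoImplicit false

namespace Pool.Agent.LargeDist.Exact

theorem f_three_eq : ∃ k₀ : ℕ, ∀ k : ℕ, k₀ ≤ k → f 3 k = Mz k + 2 := by
  obtain ⟨k₁, h₁⟩ := f_le
  obtain ⟨k₂, h₂⟩ := le_f
  obtain ⟨k₃, h₃⟩ := le_Mz
  refine ⟨max k₁ (max k₂ k₃), fun k hk => ?_⟩
  have e1 : k₁ ≤ k := (le_max_left _ _).trans hk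
  have e2 : k₂ ≤ k := ((le_max_left _ _).trans (le_max_right _ _)).trans hk
  have e3 : k₃ ≤ k := ((le_max_right _ _).trans (le_max_right _ _)).trans hk
  have h4 : M 3 k = Mz k := le_antisymm (h₃ k e3) (Mz_le k)
  rw [← h4]
  exact le_antisymm (h₁ k e1) (h₂ k e2)

end Pool.Agent.LargeDist.Exact
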