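import Pool.Agent.LargeDist.Exact.Defs

/-!
# Two classes

PROOF of `splits_two`. If `Y` is empty this is trivial; otherwise let `x₀ ∈ Y` with `φ x₀` minimal
(`Finset.exists_min_image`). Class `0`: the `y` with `dist x₀ y < r`, class `1`: the others. Two
points `y, z` of class `0`, say `φ y ≤ φ z`: `dist y z ≤ dist x₀ z < r`. Suppose `y, z` are in class
`1`, `φ y ≤ φ z` and `r ≤ dist y z` (if `y = z` then `dist y z = 0 < r`). At most `3 n` points of `C`
are at distance at least `r` from one of `x₀, y, z`, so there is `c ∈ C` at distance less than `r`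
from all three (`3 n < card C`). If `φ c ≤ φ y` then `dist y z ≤ dist c z < r` (`hmono c y z`), a
contradiction; if `φ y ≤ φ c` then `dist x₀ y ≤ dist x₀ c < r` (`hmono x₀ y c`), a contradiction to
`r ≤ dist x₀ y`.
-/

set_option autoImplicit false

namespace Pool.Agent.LargeDist.Exact

open Finset

theorem splits_two {Y C : Finset E3} {r : ℝ} (hr : 0 < r) (φ : E3 → ℝ)
    (hmono : ∀ x y z, (x ∈ Y ∨ x ∈ C) → (y ∈ Y ∨ y ∈ C) → (z ∈ Y ∨ z ∈ C) → φ x ≤ φ y →
      φ y ≤ φ z → dist x y ≤ dist x z ∧ dist y z ≤ dist x z) {n : ℕ}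
    (hfar : ∀ y ∈ Y, (C.filter fun c => r ≤ dist y c).card ≤ n) (hC : 3 * n < C.card) :
    Splits Y r 2 := by
  classical
  rcases Y.eq_empty_or_nonempty with rfl | hne
  · exact Splits.empty r 2
  obtain ⟨x₀, hx₀, hmin⟩ := Finset.exists_min_image Y φ hne
  have key : ∀ y ∈ Y, ∀ z ∈ Y, φ y ≤ φ z →
      (if dist x₀ y < r then 0 else 1 : ℕ) = (if dist x₀ z < r then 0 else 1) →
      dist y z < r := by
    intro y hy z hz hyz hc
    by_cases h1 : dist x₀ z < r
    · exact (hmono x₀ y z (Or.inl hx₀) (Or.inl hy) (Or.inl hz) (hmin y hy) hyz).2.trans_lt h1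
    · have h2 : ¬ dist x₀ y < r := by
        intro h2
        rw [if_pos h2, if_neg h1] at hc
        exact zero_ne_one hc
      by_contra h3
      obtain ⟨c, hcC, hc0⟩ : ∃ c ∈ C, c ∉ (C.filter fun c => r ≤ dist x₀ c) ∪
          ((C.filter fun c => r ≤ dist y c) ∪ (C.filter fun c => r ≤ dist z c)) := by
        by_contra hcon
        push Not at hcon
        have h4 : C ⊆ (C.filter fun c => r ≤ dist x₀ c) ∪
          ((C.filter fun c => r ≤ dist y c) ∪ (C.filter fun c => r ≤ dist z c)) := hcon
        have h5 := Finset.card_le_card h4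
        have h6 := Finset.card_union_le (C.filter fun c => r ≤ dist x₀ c)
          ((C.filter fun c => r ≤ dist y c) ∪ (C.filter fun c => r ≤ dist z c))
        have h7 := Finset.card_union_le (C.filter fun c => r ≤ dist y c)
          (C.filter fun c => r ≤ dist z c)
        have h8 := hfar x₀ hx₀
        have h9 := hfar y hy
        have h10 := hfar z hz
        omega
      simp only [Finset.mem_union, Finset.mem_filter, hcC, true_and, not_or, not_le] at hc0
      obtain ⟨h4, h5, h6⟩ := hc0
      rcases le_total (φ c) (φ y) with h7 | h7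
      · have h8 := (hmono c y z (Or.inr hcC) (Or.inl hy) (Or.inl hz) h7 hyz).2
        rw [dist_comm c z] at h8
        exact h3 (h8.trans_lt h6)
      · have h8 := (hmono x₀ y c (Or.inl hx₀) (Or.inl hy) (Or.inr hcC) (hmin y hy) h7).1
        exact h2 (h8.trans_lt h4)
  refine ⟨fun y => if dist x₀ y < r then 0 else 1, ?_, ?_⟩
  · intro x _
    show (if dist x₀ x < r then 0 else 1) < 2
    split_ifs
    · exact two_pos
    · exact one_lt_two
  · intro x hx y hy hxy
    rcases le_total (φ x) (φ y) with h | h
    · exact key x hx y hy h hxy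
    · rw [dist_comm]
      exact key y hy x hx h hxy.symm

end Pool.Agent.LargeDist.Exact
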