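import Pool.Agent.LargeDist.Exact.OnArcOf
import Pool.Agent.LargeDist.Exact.Apex
import Pool.Agent.LargeDist.Exact.FrameEx
import Pool.Agent.LargeDist.Exact.Arc
import Pool.Agent.LargeDist.Exact.TwoCol

/-!
# The near part splits into two classes

PROOF of `cone_frame`. `exists_frame`; `Bt = B.image t`, `card Bt = card B` (`t` is injective on `B`:
`dist x x' = |t x - t x'|` for `x, x' ∈ B`). `rd Bt ⊆ Δ` and `uu (t y) (α y) (t x) = dist x y ∈ Δ`.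
`apex` with `W = 4000` gives `Crd Bt a g j`, `p`, `N` with `4 (α y) ^ 2 = N g ^ 2`,
`4000 ≤ 2 N + 4`; `sep_le` gives `r ≤ 4 g` for every `r` as in `hsep`, so
`4 (α y) ^ 2 ≥ 1998 g ^ 2 ≥ 1998 r ^ 2 / 16 ≥ 100 r ^ 2`, `α y ≥ 5 r`.
PROOF of `near_splits`. Let `r = kthDist S k > 0` (`dists_pos`, `kthDist_mem`),
`Δ = (dists S).filter (r ≤ ·)`, `card Δ = k` (`card_filter_kthDist`). `cone_frame` for `X`, `B`, `y₀`
(all distances between different points of `B`, and from `B` to `y₀`, are in `Δ`). Let `o = t y₀`,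
`ρ = α y₀`. (1) Every `c ∈ C` is on the arc: `on_arc` (`dist c y₀ < r / 8`,
`|t c - o| ≤ dist c y₀`; `x ≠ c` for `x ∈ B` as `r ≤ dist x c`). (2) Every `y ∈ Y` is on the arc: let
`c ∈ C` with `dist y c < r`; `t c = o` by (1), so `|t y - o| ≤ dist y c < r`, and
`dist y y₀ < r + r / 8`; `on_arc`. (3) `splits_two` with `φ = β`, `n = 2 k`: `arc_mono`,
`far_card_le` with `D = Δ`.
-/

set_option autoImplicit false

namespace Pool.Agent.LargeDist.Exact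

open Finset Module

/-- the coordinates of an extremal configuration -/
theorem cone_frame {X B : Finset E3} (hX : X.Nonempty)
    (hrank : finrank ℝ (vectorSpan ℝ (X : Set E3)) + 2 ≤ 3) {y : E3}
    (hy : y ∉ affineSpan ℝ (X : Set E3)) (hBX : B ⊆ X) {Δ : Finset ℝ} {k T : ℕ}
    (hΔ1 : ∀ x ∈ B, ∀ z ∈ B, x ≠ z → dist x z ∈ Δ) (hΔ2 : ∀ x ∈ B, dist x y ∈ Δ)
    (hk : Δ.card ≤ k) (hT : DivB B.card T) (hW : 2 * k + 4000 ≤ 3 * B.card) :
    ∃ (t α β : E3 → ℝ) (a g : ℝ) (j : ℝ → ℤ) (p : ℤ) (N : ℕ), Frame t α β ∧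
      (∀ x ∈ X, α x = 0 ∧ β x = 0) ∧ β y = 0 ∧ 0 < α y ∧ (B.image t).card = B.card ∧
      Crd (B.image t) a g j ∧ 2 * (t y - a) = p * g ∧ 0 ≤ p ∧ p ≤ 4 * B.card ∧ 0 < N ∧
      4 * α y ^ 2 = N * g ^ 2 ∧
      ∀ r : ℝ, 0 < r → (∀ x ∈ B, ∀ z ∈ B, x ≠ z → r ≤ dist x z) → r ≤ 4 * g ∧ 5 * r ≤ α y := by
  obtain ⟨t, α, β, hF, hX0, hβy, hαy⟩ := exists_frame hX hrank hy
  have hiso : ∀ x ∈ B, ∀ z ∈ B, dist x z = |t x - t z| := by
    intro x hx z hz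
    have h1 := hF.dist_sq x z
    rw [(hX0 x (hBX hx)).1, (hX0 x (hBX hx)).2, (hX0 z (hBX hz)).1, (hX0 z (hBX hz)).2] at h1
    have h2 : dist x z ^ 2 = (t x - t z) ^ 2 := by
      rw [h1]
      ring
    rw [← Real.sqrt_sq_eq_abs, ← h2, Real.sqrt_sq dist_nonneg]
  have hinj : Set.InjOn t B := by
    intro x hx z hz hxz
    have h1 := hiso x hx z hz
    rw [hxz, sub_self, abs_zero] at h1
    exact dist_eq_zero.1 h1
  have hcard : (B.image t).card = B.card := Finset.card_image_of_injOn hinj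
  have hrd : rd (B.image t) ⊆ Δ := by
    intro s hs
    obtain ⟨x, hx, z, hz, hxz, rfl⟩ := mem_rd.1 hs
    obtain ⟨x', hx', rfl⟩ := Finset.mem_image.1 hx
    obtain ⟨z', hz', rfl⟩ := Finset.mem_image.1 hz
    rw [← hiso x' hx' z' hz']
    exact hΔ1 x' hx' z' hz' fun h => hxz (by rw [h])
  have huu : ∀ b ∈ B.image t, uu (t y) (α y) b ∈ Δ := by
    intro b hb
    obtain ⟨x, hx, rfl⟩ := Finset.mem_image.1 hb
    have h1 := hF.dist_sq x y
    rw [(hX0 x (hBX hx)).1, (hX0 x (hBX hx)).2, hβy] at h1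
    have h2 : uu (t y) (α y) (t x) = dist x y := by
      unfold uu
      have h3 : (t x - t y) ^ 2 + α y ^ 2 = dist x y ^ 2 := by
        rw [h1]
        ring
      rw [h3, Real.sqrt_sq dist_nonneg]
    rw [h2]
    exact hΔ2 x hx
  have hT' : DivB (B.image t).card T := by rwa [hcard]
  obtain ⟨a, g, j, p, N, hc, hp, hp0, hp1, hN, hNW⟩ := apex hT' hαy hrd huu hk
    (W := 4000) (by rw [hcard]; exact hW) (by norm_num)
  have hN0 : (1998 : ℤ) ≤ N := by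
    push_cast at hNW
    linarith
  have hNc : ((N.toNat : ℕ) : ℤ) = N := Int.toNat_of_nonneg (by omega)
  have hNr : ((N.toNat : ℕ) : ℝ) = (N : ℝ) := by exact_mod_cast congrArg (Int.cast : ℤ → ℝ) hNc
  have hN1 : (1998 : ℝ) ≤ (N : ℝ) := by exact_mod_cast hN0
  rw [hcard] at hp1
  refine ⟨t, α, β, a, g, j, p, N.toNat, hF, hX0, hβy, hαy, hcard, hc, hp, hp0, hp1, by omega,
    by rw [hNr]; exact hN, ?_⟩
  intro r hr hsep
  have hg : r ≤ 4 * g := by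
    refine sep_le hc hr (by rw [hcard]; omega) ?_
    intro x hx z hz hxz
    obtain ⟨x', hx', rfl⟩ := Finset.mem_image.1 hx
    obtain ⟨z', hz', rfl⟩ := Finset.mem_image.1 hz
    rw [← hiso x' hx' z' hz']
    exact hsep x' hx' z' hz' fun h => hxz (by rw [h])
  refine ⟨hg, ?_⟩
  have h1 : r ^ 2 ≤ (4 * g) ^ 2 := pow_le_pow_left₀ hr.le hg 2
  have h2 : 1998 * g ^ 2 ≤ (N : ℝ) * g ^ 2 := mul_le_mul_of_nonneg_right hN1 (sq_nonneg g)
  have h3 : (5 * r) ^ 2 ≤ α y ^ 2 := by nlinarith [sq_nonneg r]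
  exact (abs_le_of_sq_le_sq' h3 hαy.le).2

theorem near_splits {k : ℕ} (hk : 1 ≤ k) {S C X Y B : Finset E3} (hkS : k ≤ (dists S).card)
    (hCS : C ⊆ S) (hXS : X ⊆ S) (hYS : Y ⊆ S) (hC : 6 * k < C.card)
    (hCd : ∀ x ∈ C, ∀ y ∈ C, dist x y < kthDist S k / 8)
    (hXC : ∀ x ∈ X, ∀ c ∈ C, kthDist S k ≤ dist x c)
    (hYC : ∀ y ∈ Y, ∃ c ∈ C, dist y c < kthDist S k)
    (hrank : finrank ℝ (vectorSpan ℝ (X : Set E3)) + 2 ≤ 3) {y₀ : E3} (hy₀ : y₀ ∈ C)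
    (hy₀X : y₀ ∉ affineSpan ℝ (X : Set E3)) (hBX : B ⊆ X)
    (hBsep : ∀ x ∈ B, ∀ y ∈ B, x ≠ y → kthDist S k ≤ dist x y) {T : ℕ} (hT : DivB B.card T)
    (hW : 2 * k + 4000 ≤ 3 * B.card) : Splits Y (kthDist S k) 2 := by
  set r := kthDist S k with hrdef
  have hr : 0 < r := dists_pos (kthDist_mem hk hkS)
  have hmem : ∀ x ∈ S, ∀ z ∈ S, r ≤ dist x z →
      dist x z ∈ (dists S).filter (fun s => r ≤ s) := by
    intro x hx z hz h
    rw [Finset.mem_filter]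
    refine ⟨mem_dists.2 ⟨x, hx, z, hz, ?_, rfl⟩, h⟩
    rintro rfl
    rw [dist_self] at h
    exact absurd h (not_le.2 hr)
  have hΔk : ((dists S).filter (fun s => r ≤ s)).card = k := card_filter_kthDist hk hkS
  have hBS : ∀ x ∈ B, x ∈ S := fun x hx => hXS (hBX hx)
  have hy₀S : y₀ ∈ S := hCS hy₀
  have hXne : X.Nonempty := by
    have h1 : 0 < B.card := by omega
    obtain ⟨x, hx⟩ := Finset.card_pos.1 h1
    exact ⟨x, hBX hx⟩
  have hΔ1 : ∀ x ∈ B, ∀ z ∈ B, x ≠ z → dist x z ∈ (dists S).filter (fun s => r ≤ s) :=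
    fun x hx z hz hxz => hmem x (hBS x hx) z (hBS z hz) (hBsep x hx z hz hxz)
  have hΔ2 : ∀ x ∈ B, dist x y₀ ∈ (dists S).filter (fun s => r ≤ s) :=
    fun x hx => hmem x (hBS x hx) y₀ hy₀S (hXC x (hBX hx) y₀ hy₀)
  obtain ⟨t, α, β, a, g, j, p, N, hF, hX0, hβ, hα, hcard, hc, hp, hp0, hp1, hN, h4, hlast⟩ :=
    cone_frame hXne hrank hy₀X hBX hΔ1 hΔ2 hΔk.le hT hW
  obtain ⟨hrg, h5⟩ := hlast r hr hBsep
  have ht : ∀ x z : E3, |t x - t z| ≤ dist x z := by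
    intro x z
    refine abs_le_of_sq_le_sq ?_ dist_nonneg
    rw [hF.dist_sq x z]
    nlinarith [sq_nonneg (α x - α z), sq_nonneg (β x - β z)]
  have harc : ∀ z ∈ S, dist z y₀ < 2 * r → |t z - t y₀| < r →
      OnArc t α β (t y₀) (α y₀) z := by
    intro z hz h1 h2
    exact on_arc hF (fun x hx => hX0 x (hBX hx)) hr hβ h5 hc hT hp hp0 hp1 hΔ1 hΔ2 hΔk.le
      (by omega) hBsep hrg (fun x hx h => hmem x (hBS x hx) z hz h) h1 h2
  have hCarc : ∀ c ∈ C, OnArc t α β (t y₀) (α y₀) c := by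
    intro c hcC
    have h1 := hCd c hcC y₀ hy₀
    exact harc c (hCS hcC) (by linarith) ((ht c y₀).trans_lt (by linarith))
  have hYarc : ∀ y ∈ Y, OnArc t α β (t y₀) (α y₀) y := by
    intro y hy
    obtain ⟨c, hcC, hyc⟩ := hYC y hy
    have h1 := hCd c hcC y₀ hy₀
    have h2 : dist y y₀ ≤ dist y c + dist c y₀ := dist_triangle _ _ _
    refine harc y (hYS hy) (by linarith) ?_
    rw [← (hCarc c hcC).t]
    exact (ht y c).trans_lt hyc
  have hall : ∀ x, (x ∈ Y ∨ x ∈ C) → OnArc t α β (t y₀) (α y₀) x := by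
    rintro x (hx | hx)
    · exact hYarc x hx
    · exact hCarc x hx
  refine splits_two (C := C) hr β (fun x y z hx hy hz h1 h2 =>
    arc_mono hF hα (hall x hx) (hall y hy) (hall z hz) h1 h2) (n := 2 * k) ?_ (by omega)
  intro y hy
  have h1 := far_card_le hF hα (hYarc y hy) C hCarc ((dists S).filter (fun s => r ≤ s)) (r := r)
    (fun c hcC h => hmem y (hYS hy) c (hCS hcC) h)
  rwa [hΔk] at h1

end Pool.Agent.LargeDist.Exact
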