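import Pool.Agent.LargeDist.Exact.Second

/-!
# The near points are on the circle

PROOF of `close_le`. `uu o ρ b < r` gives `|b - o| < r`. Two different elements `b < b'` of `B` with
`o ≤ b`, `b' < o + r`, or with `o - r < b`, `b' < o`, would have `|b - b'| < r`. So there is at most
one `b` with `o ≤ b` and at most one with `b < o` (`Finset.card_le_one`, `filter_card_add_...`).
PROOF of `on_arc`. Let `o = t y₀`, `ρ = α y₀ ≥ 5 r`, `s = sqrt (α z ^ 2 + β z ^ 2)`. For `x ∈ B`: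
`dist x y₀ = uu o ρ (t x)`, `dist x z = uu (t z) s (t x)`, and `|t x - t x'| = dist x x'` for
`x, x' ∈ B` (`hF.dist_sq`; squares of nonnegative numbers). `s > 0`: otherwise `α z = β z = 0` and
`dist z y₀ ^ 2 ≥ ρ ^ 2 ≥ 25 r ^ 2`, against `hz0`. Let `Bt = B.image t` (`t` is injective on `B`, so
`card Bt = card B`), `B' = {b ∈ Bt : r ≤ uu (t z) s b}`, `card Bt ≤ card B' + 2` by `close_le`. All
the hypotheses of `second` hold (with `Bt`, `B'`, `Δ`, `o₂ = t z`, `ρ₂ = s`), so `t z = o` and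
`α z ^ 2 + β z ^ 2 = s ^ 2 = ρ ^ 2`. Finally
`4 r ^ 2 > dist z y₀ ^ 2 = (α z - ρ) ^ 2 + β z ^ 2 = 2 ρ ^ 2 - 2 ρ α z`, so `α z > 0`.
-/

set_option autoImplicit false

namespace Pool.Agent.LargeDist.Exact

open Finset

theorem close_le {B : Finset ℝ} {r : ℝ} (hr : 0 < r)
    (hsep : ∀ x ∈ B, ∀ y ∈ B, x ≠ y → r ≤ |x - y|) (o ρ : ℝ) :
    (B.filter fun b => uu o ρ b < r).card ≤ 2 := by
  classical
  set F := B.filter fun b => uu o ρ b < r with hF
  have hlt : ∀ b ∈ F, |b - o| < r := by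
    intro b hb
    have h1 := (Finset.mem_filter.mp hb).2
    have h2 := uu_sq o ρ b
    have h3 := uu_nonneg o ρ b
    apply abs_lt_of_sq_lt_sq _ hr.le
    nlinarith [sq_nonneg ρ]
  have hsplit := Finset.card_filter_add_card_filter_not (s := F) (fun b => o ≤ b)
  have h1 : (F.filter fun b => o ≤ b).card ≤ 1 := by
    rw [Finset.card_le_one]
    intro x hx y hy
    obtain ⟨hx1, hx2⟩ := Finset.mem_filter.mp hx
    obtain ⟨hy1, hy2⟩ := Finset.mem_filter.mp hy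
    by_contra hne
    have h3 := hsep x (Finset.mem_filter.mp hx1).1 y (Finset.mem_filter.mp hy1).1 hne
    have h4 := abs_lt.mp (hlt x hx1)
    have h5 := abs_lt.mp (hlt y hy1)
    have h6 : |x - y| < r := abs_lt.mpr ⟨by linarith [h5.2], by linarith [h4.2]⟩
    linarith
  have h2 : (F.filter fun b => ¬ o ≤ b).card ≤ 1 := by
    rw [Finset.card_le_one]
    intro x hx y hy
    obtain ⟨hx1, hx2⟩ := Finset.mem_filter.mp hx
    obtain ⟨hy1, hy2⟩ := Finset.mem_filter.mp hy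
    push Not at hx2 hy2
    by_contra hne
    have h3 := hsep x (Finset.mem_filter.mp hx1).1 y (Finset.mem_filter.mp hy1).1 hne
    have h4 := abs_lt.mp (hlt x hx1)
    have h5 := abs_lt.mp (hlt y hy1)
    have h6 : |x - y| < r := abs_lt.mpr ⟨by linarith [h4.1], by linarith [h5.1]⟩
    linarith
  omega

theorem on_arc {t α β : E3 → ℝ} (hF : Frame t α β) {B : Finset E3}
    (hB0 : ∀ x ∈ B, α x = 0 ∧ β x = 0) {Δ : Finset ℝ} {y₀ : E3} {r : ℝ} (hr : 0 < r)
    (hβ : β y₀ = 0) (hα : 5 * r ≤ α y₀) {a g : ℝ} {j : ℝ → ℤ} (hc : Crd (B.image t) a g j)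
    {T : ℕ} (hT : DivB B.card T) {p : ℤ} (hp : 2 * (t y₀ - a) = p * g) (hp0 : 0 ≤ p)
    (hp1 : p ≤ 4 * B.card) (hΔ1 : ∀ x ∈ B, ∀ y ∈ B, x ≠ y → dist x y ∈ Δ)
    (hΔ2 : ∀ x ∈ B, dist x y₀ ∈ Δ) {k : ℕ} (hk : Δ.card ≤ k) (hkm : 2 * k ≤ 3 * B.card)
    (hsep : ∀ x ∈ B, ∀ y ∈ B, x ≠ y → r ≤ dist x y) (hrg : r ≤ 4 * g) {z : E3}
    (hz : ∀ x ∈ B, r ≤ dist x z → dist x z ∈ Δ) (hz0 : dist z y₀ < 2 * r)
    (hzt : |t z - t y₀| < r) : OnArc t α β (t y₀) (α y₀) z := by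
  classical
  have hρ : 0 < α y₀ := by linarith
  obtain ⟨s, hs⟩ : ∃ s, s = Real.sqrt (α z ^ 2 + β z ^ 2) := ⟨_, rfl⟩
  have hs2 : s ^ 2 = α z ^ 2 + β z ^ 2 := by
    rw [hs]
    exact Real.sq_sqrt (by positivity)
  have hs0 : 0 ≤ s := by
    rw [hs]
    exact Real.sqrt_nonneg _
  have hzy := hF.dist_sq z y₀
  rw [hβ, sub_zero] at hzy
  have hzy2 : dist z y₀ ^ 2 < 4 * r ^ 2 := by
    have := dist_nonneg (x := z) (y := y₀)
    nlinarith
  have hspos : 0 < s := by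
    rcases hs0.lt_or_eq with h | h
    · exact h
    · exfalso
      have h1 : α z ^ 2 + β z ^ 2 = 0 := by rw [← hs2, ← h]; norm_num
      have h2 : α z = 0 := by nlinarith [sq_nonneg (α z), sq_nonneg (β z)]
      have h3 : dist z y₀ ^ 2 = (t z - t y₀) ^ 2 + (α y₀) ^ 2 + β z ^ 2 := by
        rw [hzy, h2]
        ring
      nlinarith [sq_nonneg (t z - t y₀), sq_nonneg (β z)]
  have hdy : ∀ x ∈ B, dist x y₀ = uu (t y₀) (α y₀) (t x) := by
    intro x hx
    obtain ⟨h1, h2⟩ := hB0 x hx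
    have h3 := hF.dist_sq x y₀
    rw [h1, h2, hβ] at h3
    have h4 := uu_sq (t y₀) (α y₀) (t x)
    rw [← abs_of_nonneg (dist_nonneg (x := x) (y := y₀)),
      ← abs_of_nonneg (uu_nonneg (t y₀) (α y₀) (t x)), ← sq_eq_sq_iff_abs_eq_abs, h3, h4]
    ring
  have hdz : ∀ x ∈ B, dist x z = uu (t z) s (t x) := by
    intro x hx
    obtain ⟨h1, h2⟩ := hB0 x hx
    have h3 := hF.dist_sq x z
    rw [h1, h2] at h3
    have h4 := uu_sq (t z) s (t x)
    rw [← abs_of_nonneg (dist_nonneg (x := x) (y := z)),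
      ← abs_of_nonneg (uu_nonneg (t z) s (t x)), ← sq_eq_sq_iff_abs_eq_abs, h3, h4, hs2]
    ring
  have hdd : ∀ x ∈ B, ∀ y ∈ B, |t x - t y| = dist x y := by
    intro x hx y hy
    obtain ⟨h1, h2⟩ := hB0 x hx
    obtain ⟨h3, h4⟩ := hB0 y hy
    have h5 := hF.dist_sq x y
    rw [h1, h2, h3, h4] at h5
    rw [← abs_of_nonneg (dist_nonneg (x := x) (y := y)), ← sq_eq_sq_iff_abs_eq_abs, h5]
    ring
  have hinj : Set.InjOn t (B : Set E3) := by
    intro x hx y hy hxy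
    have h1 := hdd x hx y hy
    rw [hxy, sub_self, abs_zero] at h1
    exact dist_eq_zero.mp h1.symm
  have hcard : (B.image t).card = B.card := Finset.card_image_of_injOn hinj
  have hsep' : ∀ x ∈ B.image t, ∀ y ∈ B.image t, x ≠ y → r ≤ |x - y| := by
    intro x hx y hy hne
    obtain ⟨x', hx', rfl⟩ := Finset.mem_image.mp hx
    obtain ⟨y', hy', rfl⟩ := Finset.mem_image.mp hy
    rw [hdd x' hx' y' hy']
    exact hsep x' hx' y' hy' fun h => hne (by rw [h])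
  have hsplit := Finset.card_filter_add_card_filter_not (s := B.image t)
    (fun b => uu (t z) s b < r)
  have hclose := close_le hr hsep' (t z) s
  have hmain := second (B := B.image t)
    (B' := (B.image t).filter fun b => ¬ uu (t z) s b < r) (Δ := Δ) hc (T := T)
    (by rw [hcard]; exact hT) hρ hspos hp hp0 (by rw [hcard]; exact hp1)
    (by
      intro u hu
      obtain ⟨x, hx, y, hy, hne, rfl⟩ := mem_rd.mp hu
      obtain ⟨x', hx', rfl⟩ := Finset.mem_image.mp hx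
      obtain ⟨y', hy', rfl⟩ := Finset.mem_image.mp hy
      rw [hdd x' hx' y' hy']
      exact hΔ1 x' hx' y' hy' fun h => hne (by rw [h]))
    (by
      intro b hb
      obtain ⟨x, hx, rfl⟩ := Finset.mem_image.mp hb
      rw [← hdy x hx]
      exact hΔ2 x hx) (Finset.filter_subset _ _) (by omega)
    (by
      intro b hb
      obtain ⟨hb1, hb2⟩ := Finset.mem_filter.mp hb
      obtain ⟨x, hx, rfl⟩ := Finset.mem_image.mp hb1
      rw [← hdz x hx] at hb2 ⊢
      exact hz x hx (not_lt.mp hb2)) hk (by rw [hcard]; exact hkm) hsep' hrg hzt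
  obtain ⟨hm1, hm2⟩ := hmain
  have hsq : α z ^ 2 + β z ^ 2 = α y₀ ^ 2 := by rw [← hs2, hm2]
  refine ⟨hm1, hsq, ?_⟩
  rw [hm1, sub_self] at hzy
  by_contra hneg
  push Not at hneg
  nlinarith

end Pool.Agent.LargeDist.Exact
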