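import Pool.Agent.LargeDist.Exact.Defs

/-!
# Symmetry

`uu o ρ b = uu o ρ b'` iff `b = b'` or `b + b' = 2 o`.
PROOF of `two_mul_card_le`. Let `Sy = {b ∈ B : 2 o - b ∈ B}`. `uu o ρ` is injective on `B \ Sy`, the
images of `B \ Sy` and of `Sy` are disjoint (if `uu b = uu b'`, `b ≠ b'`, then `b' = 2 o - b`, and
both are in `Sy`), and `card Sy ≤ 2 card (uu (Sy))` (`card_le_two_mul_uu`,
`LineBound.lean`). So `card (uu B) ≥ card B - card Sy + card Sy / 2`.
PROOF of `card_add_sym_le`. The two sets are disjoint subsets of `B`: let `b` be in both,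
`uu o₂ ρ b = uu o ρ b'` with `b' ∈ B`, so `(b - o₂) ^ 2 = (b' - o) ^ 2`, `b' = b - (o₂ - o)` or
`b' = o₂ + o - b`. In the first case `b' ≠ b` and `|b' - b| = |o₂ - o| < r`, against `hsep`; in the
second case `b'' = 2 o - b ∈ B`, `b' - b'' = o₂ - o`, again against `hsep`.
-/

set_option autoImplicit false

namespace Pool.Agent.LargeDist.Exact

open Finset

private theorem uu_eq_cases {o o' ρ x y : ℝ} (h : uu o ρ x = uu o' ρ y) :
    x - o = y - o' ∨ x - o = -(y - o') := by
  have h1 := congrArg (fun t => t ^ 2) h
  simp only [uu_sq] at h1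
  have h2 : (x - o - (y - o')) * (x - o + (y - o')) = 0 := by ring_nf; ring_nf at h1; linarith
  rcases mul_eq_zero.1 h2 with h3 | h3
  · left; linarith
  · right; linarith

open scoped Classical in
theorem two_mul_card_le (B : Finset ℝ) (o ρ : ℝ) :
    2 * B.card ≤ 2 * (B.image (uu o ρ)).card + (B.filter fun b => 2 * o - b ∈ B).card := by
  set S := B.filter fun b => 2 * o - b ∈ B with hS
  set N := B.filter fun b => ¬ (2 * o - b ∈ B) with hN
  have hcard : S.card + N.card = B.card := Finset.card_filter_add_card_filter_not _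
  have hdis : Disjoint (S.image (uu o ρ)) (N.image (uu o ρ)) := by
    rw [Finset.disjoint_left]
    intro t ht1 ht2
    obtain ⟨b, hb, rfl⟩ := Finset.mem_image.1 ht1
    obtain ⟨c, hc, hbc⟩ := Finset.mem_image.1 ht2
    rw [hS, Finset.mem_filter] at hb
    rw [hN, Finset.mem_filter] at hc
    rcases uu_eq_cases hbc with h | h
    · have : c = b := by linarith
      subst this
      exact hc.2 hb.2
    · have : 2 * o - c = b := by linarith
      rw [this] at hc
      exact hc.2 hb.1
  have hinj : (N.image (uu o ρ)).card = N.card := by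
    apply Finset.card_image_of_injOn
    intro b hb c hc hbc
    rw [hN, Finset.coe_filter] at hb hc
    rcases uu_eq_cases hbc with h | h
    · linarith
    · exfalso
      have : 2 * o - b = c := by linarith
      apply hb.2
      rw [this]
      exact hc.1
  have hsub : S.image (uu o ρ) ∪ N.image (uu o ρ) ⊆ B.image (uu o ρ) :=
    Finset.union_subset (Finset.image_subset_image (Finset.filter_subset _ _))
      (Finset.image_subset_image (Finset.filter_subset _ _))
  have h1 := Finset.card_le_card hsub
  rw [Finset.card_union_of_disjoint hdis, hinj] at h1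
  have h2 := card_le_two_mul_uu S o ρ
  omega

open scoped Classical in
theorem card_add_sym_le {B : Finset ℝ} {o o₂ ρ r : ℝ}
    (hsep : ∀ x ∈ B, ∀ y ∈ B, x ≠ y → r ≤ |x - y|) (h0 : o₂ ≠ o) (hr : |o₂ - o| < r) :
    (B.filter fun b => uu o₂ ρ b ∈ B.image (uu o ρ)).card +
      (B.filter fun b => 2 * o - b ∈ B).card ≤ B.card := by
  have hdis : Disjoint (B.filter fun b => uu o₂ ρ b ∈ B.image (uu o ρ))
      (B.filter fun b => 2 * o - b ∈ B) := by
    rw [Finset.disjoint_left]
    intro b hb1 hb2
    rw [Finset.mem_filter] at hb1 hb2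
    obtain ⟨hb, hb'⟩ := hb1
    obtain ⟨c, hc, hbc⟩ := Finset.mem_image.1 hb'
    rcases uu_eq_cases hbc with h | h
    · have h3 : b - c = o₂ - o := by linarith
      have hne : b ≠ c := by
        intro h4
        apply h0
        rw [h4, sub_self] at h3
        linarith
      have h4 := hsep b hb c hc hne
      rw [h3] at h4
      linarith
    · have h3 : c - (2 * o - b) = o₂ - o := by linarith
      have hne : c ≠ 2 * o - b := by
        intro h4
        apply h0
        rw [← h4, sub_self] at h3
        linarith
      have h4 := hsep c hc (2 * o - b) hb2.2 hne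
      rw [h3] at h4
      linarith
  rw [← Finset.card_union_of_disjoint hdis]
  exact Finset.card_le_card (Finset.union_subset (Finset.filter_subset _ _)
    (Finset.filter_subset _ _))

end Pool.Agent.LargeDist.Exact
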