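import Pool.Agent.LargeDist.Exact.CoincRd
import Pool.Agent.LargeDist.Exact.CoincUu
import Pool.Agent.LargeDist.Exact.Sym
import Pool.Agent.LargeDist.Exact.Count

/-!
# The second point is on the same circle

PROOF of `second`. Let `m = card B`, `J = {b ∈ B : uu o₂ ρ₂ b ∈ uu o ρ (B)}`,
`J' = {b ∈ B' : uu o₂ ρ₂ b ∉ uu o ρ (B)}`, so `card J' ≥ m - 2 - card J`. `count_two` (with
`card_rd_le` twice) and `card_le_two_mul_uu` for `J'` give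
`2 m + 2 card (uu o ρ (B)) + card J' ≤ 2 card Δ + 2 + 4 T`.
Case `ρ₂ ≠ ρ`: `card J ≤ 2 T` (`card_uu_le`; `|o₂ - o| < r ≤ 4 g ≤ 2 m g` as `m ≥ 40`), and
`2 card (uu (B)) ≥ m`, so `4 m ≤ 2 k + 4 + 6 T ≤ 3 m + 4 + 6 T`, a contradiction to `40 T ≤ m`,
`1 ≤ T`.
Case `ρ₂ = ρ`, `o₂ ≠ o`: `two_mul_card_le` and `card_add_sym_le` give
`2 card (uu (B)) + card J' ≥ 2 m - card Sy + m - 2 - card J ≥ 2 m - 2`, so again
`4 m ≤ 2 k + 4 + 4 T`.
-/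

set_option autoImplicit false

namespace Pool.Agent.LargeDist.Exact

open Finset

theorem second {B B' Δ : Finset ℝ} {a g : ℝ} {j : ℝ → ℤ} (hc : Crd B a g j) {T : ℕ}
    (hT : DivB B.card T) {o ρ o₂ ρ₂ r : ℝ} (hρ : 0 < ρ) (hρ₂ : 0 < ρ₂) {p : ℤ}
    (hp : 2 * (o - a) = p * g) (hp0 : 0 ≤ p) (hp1 : p ≤ 4 * B.card) (h1 : rd B ⊆ Δ)
    (h2 : ∀ b ∈ B, uu o ρ b ∈ Δ) (hB : B' ⊆ B) (hB2 : B.card ≤ B'.card + 2)
    (h3 : ∀ b ∈ B', uu o₂ ρ₂ b ∈ Δ) {k : ℕ} (hk : Δ.card ≤ k) (hkm : 2 * k ≤ 3 * B.card)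
    (hsep : ∀ x ∈ B, ∀ y ∈ B, x ≠ y → r ≤ |x - y|) (hrg : r ≤ 4 * g) (ho : |o₂ - o| < r) :
    o₂ = o ∧ ρ₂ = ρ := by
  classical
  have hT1 := hT.one
  have hT2 := hT.small
  have hcnt := count_two (T := T) h1 h2 hB h3 (card_rd_le hc hT o hρ) (card_rd_le hc hT o₂ hρ₂)
  have hJ' := card_le_two_mul_uu
    (B'.filter fun b => uu o₂ ρ₂ b ∉ B.image (uu o ρ)) o₂ ρ₂
  have hsplit := Finset.card_filter_add_card_filter_not
    (s := B') (fun b => uu o₂ ρ₂ b ∈ B.image (uu o ρ))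
  have hmono : (B'.filter fun b => uu o₂ ρ₂ b ∈ B.image (uu o ρ)).card ≤
      (B.filter fun b => uu o₂ ρ₂ b ∈ B.image (uu o ρ)).card :=
    Finset.card_le_card (Finset.filter_subset_filter _ hB)
  have hU := card_le_two_mul_uu B o ρ
  by_cases hne : ρ₂ = ρ
  · by_cases ho2 : o₂ = o
    · exact ⟨ho2, hne⟩
    · exfalso
      have e1 := two_mul_card_le B o ρ
      have e2 := card_add_sym_le (ρ := ρ) hsep ho2 ho
      rw [← hne] at e2 e1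
      rw [← hne] at hcnt hJ' hsplit hmono hU
      omega
  · exfalso
    have hg := hc.pos
    have hm : (40 : ℝ) ≤ B.card := by
      have : 40 ≤ B.card := by omega
      exact_mod_cast this
    have ho' : |o₂ - o| ≤ 2 * B.card * g := by nlinarith
    have e1 := card_uu_le hc hT hρ hρ₂ hp hp0 hp1 ho' hne
    omega

end Pool.Agent.LargeDist.Exact
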