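import Mathlib

/-!
# Representations as a difference of two squares

PROOF of `card_sq_sub_le`. For `j ∈ J` put `u j = x j - y j`. Then `u j * (x j + y j) = c ≠ 0`, so
`u j ≠ 0` divides `c`, and `2 * x j = u j + c / u j` is determined by `u j`; as `x` is injective on
`J`, so is `u`. `j ↦ (decide (0 < u j), (u j).natAbs)` maps `J` injectively into
`univ ×ˢ c.natAbs.divisors` (`Bool` has two elements; `u j` is determined by its sign and absolute
value).
-/

set_option autoImplicit false

namespace Pool.Agent.LargeDist.Exact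

theorem card_sq_sub_le {c : ℤ} (hc : c ≠ 0) (J : Finset ℤ) (x y : ℤ → ℤ)
    (hx : ∀ i ∈ J, ∀ j ∈ J, x i = x j → i = j) (h : ∀ j ∈ J, x j ^ 2 - y j ^ 2 = c) :
    J.card ≤ 2 * c.natAbs.divisors.card := by
  have hprod : ∀ j ∈ J, (x j - y j) * (x j + y j) = c := by
    intro j hj
    rw [← h j hj]
    ring
  have hne : ∀ j ∈ J, x j - y j ≠ 0 := by
    intro j hj h0
    have h1 := hprod j hj
    rw [h0, zero_mul] at h1
    exact hc h1.symm
  have hcard : ((Finset.univ : Finset Bool) ×ˢ c.natAbs.divisors).card =
      2 * c.natAbs.divisors.card := by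
    rw [Finset.card_product, Finset.card_univ, Fintype.card_bool]
  rw [← hcard]
  refine Finset.card_le_card_of_injOn
    (fun j => (decide (0 < x j - y j), (x j - y j).natAbs)) ?_ ?_
  · intro j hj
    have hj' : j ∈ J := hj
    refine Finset.mem_coe.2 (Finset.mem_product.2 ⟨Finset.mem_univ _, ?_⟩)
    rw [Nat.mem_divisors]
    refine ⟨?_, Int.natAbs_ne_zero.2 hc⟩
    rw [Int.natAbs_dvd_natAbs]
    exact ⟨x j + y j, (hprod j hj').symm⟩
  · intro i hi j hj hij
    have hi' : i ∈ J := hi
    have hj' : j ∈ J := hj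
    rw [Prod.mk.injEq] at hij
    obtain ⟨h1, h2⟩ := hij
    rw [decide_eq_decide] at h1
    have h3 : x i - y i = x j - y j := by
      rcases Int.natAbs_eq_natAbs_iff.1 h2 with h4 | h4
      · exact h4
      · exfalso
        have h5 := hne i hi'
        have h6 := hne j hj'
        omega
    have h4 : (x i - y i) * (x i + y i) = (x i - y i) * (x j + y j) := by
      rw [hprod i hi', h3, hprod j hj']
    have h5 := mul_left_cancel₀ (hne i hi') h4
    exact hx i hi' j hj' (by omega)

end Pool.Agent.LargeDist.Exact
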