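import Pool.Agent.LargeDist.Exact.Defs

/-!
# The structure of large sets

PROOF of `structure_three`. Modification of the proof of `structure_core` (`Upper.lean`) for
`d = 3`: take `δ` from `exists_good 3`, `δ' = min δ (1 / 8)`, `n₁` from `exists_splits_ball 3 δ'`, and
`n₀ = ((k + 1) ^ 4 * n₁) * (2 * (k + 1) ^ 4 + K) + 1`, so that there is a class `C` with more than
`2 (k + 1) ^ 4 + K` points, any two at distance less than `δ' r ≤ r / 8`. The rest is the same
(`X`, `Y` are the filters of `S`, `far_flat` gives the last two statements).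
-/

set_option autoImplicit false

namespace Pool.Agent.LargeDist.Exact

open Finset Module

theorem structure_three (k K : ℕ) (hk : 1 ≤ k) :
    ∃ n₀ : ℕ, ∀ S : Finset E3, n₀ ≤ S.card → k ≤ (dists S).card →
      ∃ C X Y : Finset E3, C ⊆ S ∧ X ⊆ S ∧ Y ⊆ S ∧ (∀ x ∈ S, x ∈ X ∨ x ∈ Y) ∧ K < C.card ∧
        (∀ x ∈ C, ∀ y ∈ C, dist x y < kthDist S k / 8) ∧
        (∀ x ∈ X, ∀ c ∈ C, kthDist S k ≤ dist x c) ∧
        (∀ y ∈ Y, ∃ c ∈ C, dist y c < kthDist S k) ∧ Splits Y (kthDist S k) 125 ∧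
        finrank ℝ (vectorSpan ℝ (X : Set E3)) + 2 ≤ 3 ∧
        ∃ y₀ ∈ C, y₀ ∉ affineSpan ℝ (X : Set E3) := by
  classical
  obtain ⟨δ, hδ, Hδ⟩ := exists_good 3
  have hδ' : 0 < min δ (1 / 8) := lt_min hδ (by norm_num)
  obtain ⟨n₁, H₁⟩ := exists_splits_ball 3 (min δ (1 / 8)) hδ'
  refine ⟨((k + 1) ^ (3 + 1) * n₁) * (2 * (k + 1) ^ (3 + 1) + K) + 1, ?_⟩
  intro S hS hkS
  set r := kthDist S k with hr_def
  have hr : 0 < r := dists_pos (kthDist_mem hk hkS)
  set Ds := (dists S).filter (fun t => r ≤ t) with hDs_def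
  have hDs : Ds.card = k := card_filter_kthDist hk hkS
  -- maximal separated set
  obtain ⟨M₀, hM₀S, hM₀sep, hM₀net⟩ := exists_net S r hr
  have hM₀card : M₀.card ≤ (k + 1) ^ (3 + 1) := by
    apply card_le_of_dists
    rw [← hDs]
    apply Finset.card_le_card
    intro t ht
    obtain ⟨x, hx, y, hy, hxy, rfl⟩ := mem_dists.1 ht
    rw [hDs_def, Finset.mem_filter]
    exact ⟨mem_dists.2 ⟨x, hM₀S hx, y, hM₀S hy, hxy, rfl⟩, hM₀sep x hx y hy hxy⟩
  -- split into small classes
  have hsplit : Splits S (min δ (1 / 8) * r) ((k + 1) ^ (3 + 1) * n₁) := by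
    have h1 : Splits (M₀.biUnion fun m => S.filter (fun x => dist x m < r))
        (min δ (1 / 8) * r) (M₀.card * n₁) := by
      apply Splits.biUnion
      intro m _
      apply H₁ _ m r hr
      intro x hx
      rw [Finset.mem_filter] at hx
      exact hx.2.le
    refine (h1.mono (Nat.mul_le_mul_right _ hM₀card)).subset ?_
    intro x hx
    obtain ⟨m, hm, hxm⟩ := hM₀net x hx
    rw [Finset.mem_biUnion]
    exact ⟨m, hm, by rw [Finset.mem_filter]; exact ⟨hx, hxm⟩⟩
  -- a large class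
  obtain ⟨c, hc, hc'⟩ := hsplit
  obtain ⟨i, -, hi⟩ : ∃ i ∈ Finset.range ((k + 1) ^ (3 + 1) * n₁),
      2 * (k + 1) ^ (3 + 1) + K < (S.filter (fun x => c x = i)).card := by
    apply Finset.exists_lt_card_fiber_of_mul_lt_card_of_maps_to
    · intro x hx
      exact Finset.mem_range.2 (hc x hx)
    · rw [Finset.card_range]
      omega
  set C := S.filter (fun x => c x = i) with hC_def
  have hCS : C ⊆ S := Finset.filter_subset _ _
  have hCclose : ∀ x ∈ C, ∀ y ∈ C, dist x y < min δ (1 / 8) * r := by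
    intro x hx y hy
    rw [hC_def, Finset.mem_filter] at hx hy
    exact hc' x hx.1 y hy.1 (hx.2.trans hy.2.symm)
  have hCclose1 : ∀ x ∈ C, ∀ y ∈ C, dist x y < δ * r := fun x hx y hy =>
    (hCclose x hx y hy).trans_le (mul_le_mul_of_nonneg_right (min_le_left _ _) hr.le)
  have hCclose2 : ∀ x ∈ C, ∀ y ∈ C, dist x y < r / 8 := fun x hx y hy =>
    (hCclose x hx y hy).trans_le (by
      calc min δ (1 / 8) * r ≤ 1 / 8 * r :=
            mul_le_mul_of_nonneg_right (min_le_right _ _) hr.le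
        _ = r / 8 := by ring)
  -- far and near parts
  set X := S.filter (fun x => ∀ y ∈ C, r ≤ dist x y) with hX_def
  set Y := S.filter (fun x => ¬ ∀ y ∈ C, r ≤ dist x y) with hY_def
  have hXS : X ⊆ S := Finset.filter_subset _ _
  have hYS : Y ⊆ S := Finset.filter_subset _ _
  have hXC : ∀ x ∈ X, ∀ y ∈ C, r ≤ dist x y := by
    intro x hx
    rw [hX_def, Finset.mem_filter] at hx
    exact hx.2
  have hYC : ∀ y ∈ Y, ∃ c ∈ C, dist y c < r := by
    intro y hy
    rw [hY_def, Finset.mem_filter] at hy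
    obtain ⟨_, hy2⟩ := hy
    push Not at hy2
    exact hy2
  have hne : ∀ x y : EuclideanSpace ℝ (Fin 3), r ≤ dist x y → x ≠ y := by
    rintro x y h rfl
    rw [dist_self] at h
    linarith
  have hfar := far_flat (k := k) (Ds := Ds) hDs.le (by norm_num) (C := C) (X := X)
    (by omega) (by
    intro x hx y hy
    rw [hDs_def, Finset.mem_filter]
    have h := hXC x hx y hy
    exact ⟨mem_dists.2 ⟨x, hXS hx, y, hCS hy, hne x y h, rfl⟩, h⟩)
  obtain ⟨hrank, y₀, hy₀C, hy₀⟩ := hfar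
  -- near part
  have hYsplit : Splits Y r 125 := by
    obtain ⟨N, hNY, hNsep, hNnet⟩ := exists_net Y (r / 2) (half_pos hr)
    have hN : N.card ≤ 5 ^ 3 := by
      apply Hδ N y₀ r hr
      · intro x hx
        obtain ⟨y, hyC, hxy⟩ := hYC x (hNY hx)
        have h1 := hCclose1 y hyC y₀ hy₀C
        calc dist x y₀ ≤ dist x y + dist y y₀ := dist_triangle _ _ _
          _ ≤ r + δ * r := add_le_add hxy.le h1.le
          _ = (1 + δ) * r := by ring
      · exact hNsep
    exact (splits_of_net hNnet).mono (hN.trans (by norm_num))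
  refine ⟨C, X, Y, hCS, hXS, hYS, ?_, ?_, hCclose2, hXC, hYC, hYsplit, hrank, y₀, hy₀C, hy₀⟩
  · intro x hx
    rw [hX_def, hY_def, Finset.mem_filter, Finset.mem_filter]
    by_cases h : ∀ y ∈ C, r ≤ dist x y
    · exact Or.inl ⟨hx, h⟩
    · exact Or.inr ⟨hx, h⟩
  · exact lt_of_le_of_lt (Nat.le_add_left _ _) hi

end Pool.Agent.LargeDist.Exact
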