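import Pool.Agent.LargeDist.Exact.Near
import Pool.Agent.LargeDist.Exact.Struct
import Pool.Agent.LargeDist.Exact.MBound
import Pool.Agent.LargeDist.Exact.DivBound

/-!
# The upper bound

PROOF of `f_le`. Let `m₀` be as in `exists_divB`, `k₀` as in `exists_max (4000 + 3 * 125)`, and `k`
larger than `k₀`, `2 m₀ + 500`. `M 3 k = μ` with `3 μ ≥ 2 k + 4375`. Take `n₀` from
`structure_three k (6 * k)`. As `f 3 k` is an infimum it suffices to show
`χ (G (S, k)) ≤ μ + 2` for `card S ≥ n₀` (`chromaticNumber_le_of_splits`). Let `C, X, Y, y₀` be as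
in
`structure_three`, `r = kthDist S k > 0`. If `X` is empty, `S ⊆ Y` splits into `125 ≤ μ + 2`
classes.
Otherwise `exists_coord` and `splits_of_line` (`Dim3.lean`) give an `r`-separated `B ⊆ X` such that
`X` splits into `card B` classes. `B` is a cone set: the rank of `B` is at most that of `X`,
`y₀ ∉ affineSpan B`, and all distances of `insert y₀ B` are in `(dists S).filter (r ≤ ·)`, which has
`k` elements (or use `IsFarSet.cone`, `Upper.lean`). So `card B ≤ μ` (`card_le_M`, see
`F_three_le`). If `card B + 123 ≤ μ`: `S` splits into `card B + 125 ≤ μ + 2` classes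
(`Splits.union`, `Splits.subset`, `Splits.mono`). Otherwise `3 card B ≥ 2 k + 4000` and
`card B ≥ m₀`,
so `near_splits`, and `S` splits into `card B + 2 ≤ μ + 2` classes.
-/

set_option autoImplicit false

namespace Pool.Agent.LargeDist.Exact

open Finset Module

theorem f_le : ∃ k₀ : ℕ, ∀ k : ℕ, k₀ ≤ k → f 3 k ≤ M 3 k + 2 := by
  classical
  obtain ⟨m₀, H₀⟩ := exists_divB
  obtain ⟨k₁, H₁⟩ := exists_max 4375
  refine ⟨max k₁ (2 * m₀ + 500), ?_⟩
  intro k hkk
  have hk1 : k₁ ≤ k := (le_max_left _ _).trans hkk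
  have hk2 : 2 * m₀ + 500 ≤ k := (le_max_right _ _).trans hkk
  have hk : 1 ≤ k := by omega
  obtain ⟨A, -, hA, hA2⟩ := H₁ k hk1
  obtain ⟨n₀, Hn⟩ := structure_three k (6 * k) hk
  unfold f
  refine (iInf_le _ n₀).trans ?_
  apply iSup_le
  rintro ⟨S, hS, hkS⟩
  obtain ⟨C, X, Y, hCS, hXS, hYS, hXY, hC, hCd, hXC, hYC, hY, hrank, y₀, hy₀, hy₀X⟩ :=
    Hn S hS hkS
  have hr : 0 < kthDist S k := dists_pos (kthDist_mem hk hkS)
  have hDs : ((dists S).filter (fun t => kthDist S k ≤ t)).card = k := card_filter_kthDist hk hkS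
  have hfar : IsFarSet 3 k X (kthDist S k) := by
    refine ⟨hrank, y₀, hy₀X, fun x hx => hXC x hx y₀ hy₀, ?_⟩
    refine (Finset.card_le_card ?_).trans hDs.le
    apply Finset.filter_subset_filter
    apply dists_mono
    exact Finset.insert_subset (hCS hy₀) hXS
  obtain ⟨B, hBX, hBsep, hBsplit⟩ : ∃ B ⊆ X,
      (∀ x ∈ B, ∀ y ∈ B, x ≠ y → kthDist S k ≤ dist x y) ∧ Splits X (kthDist S k) B.card := by
    rcases X.eq_empty_or_nonempty with rfl | hne
    · exact ⟨∅, by simp, by simp, Splits.empty _ _⟩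
    obtain ⟨h, hiso, -⟩ := exists_coord hne
      (show _ ≤ 1 from Nat.le_of_add_le_add_right (b := 2) hrank)
    exact splits_of_line hr X.card X le_rfl hiso
  have hBM : B.card ≤ A.card := by
    have h1 := card_le_M (hfar.cone hBX hBsep)
    rw [hA] at h1
    exact_mod_cast h1
  have hsplit : Splits S (kthDist S k) (A.card + 2) := by
    have hsub : S ⊆ X ∪ Y := fun x hx => Finset.mem_union.2 (hXY x hx)
    by_cases hB : B.card + 123 ≤ A.card
    · exact ((hBsplit.union hY).subset hsub).mono (by omega)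
    · obtain ⟨T, hT⟩ := H₀ B.card (by omega)
      have h2 := near_splits hk hkS hCS hXS hYS hC hCd hXC hYC hrank hy₀ hy₀X hBX hBsep hT
        (by omega)
      exact ((hBsplit.union h2).subset hsub).mono (by omega)
  refine (chromaticNumber_le_of_splits hsplit).trans ?_
  rw [hA]
  push_cast
  exact le_rfl

end Pool.Agent.LargeDist.Exact
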